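import Pool.Agent.H14G.Stm
import Pool.Agent.H14F.LARGE

/-!
# Project B, stub BIG (helper9): pairs with a large prime
-/

set_option autoImplicit false

namespace Pool.Agent.H14G.BIG

open Finset Pool.Agent.H14F Pool.Agent.H14F.LARGE

/-- the multiples of `p` in the interval -/
theorem mul1 {Q H p : ℕ} (hp : 0 < p) (hQ : H ≤ Q * p) :
    ((I H).filter fun y => (p : ℤ) ∣ y).card ≤ 2 * Q + 1 := by
  refine cls1 hp hQ _ (filter_subset _ _) ?_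
  intro x hx y hy
  exact dvd_sub (mem_filter.mp hx).2 (mem_filter.mp hy).2

/-- a residue class in the interval -/
theorem add1 {Q H p : ℕ} (hp : 0 < p) (hQ : H ≤ Q * p) (c : ℤ) :
    ((I H).filter fun y => (p : ℤ) ∣ c + y).card ≤ 2 * Q + 1 := by
  refine cls1 hp hQ _ (filter_subset _ _) ?_
  intro x hx y hy
  have := dvd_sub (mem_filter.mp hx).2 (mem_filter.mp hy).2
  have e : c + x - (c + y) = x - y := by ring
  rwa [e] at this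

theorem ext3 {f g : Fin 3 → ℤ} (h0 : f 0 = g 0) (h1 : f 1 = g 1) (h2 : f 2 = g 2) : f = g := by
  funext i
  fin_cases i
  exacts [h0, h1, h2]

/-- the first coefficient is a multiple of `p` -/
theorem card_F0 {Q H p : ℕ} (hp : 0 < p) (hQ : H ≤ Q * p) :
    ((box H).filter fun f => (p : ℤ) ∣ f 0).card ≤ (2 * H + 1) ^ 2 * (2 * Q + 1) := by
  classical
  refine (fib_le ((box H).filter fun f => (p : ℤ) ∣ f 0) (I H ×ˢ I H)
    (fun _ => (I H).filter fun y => (p : ℤ) ∣ y) (fun f => (f 1, f 2)) (fun f => f 0) (2 * Q + 1)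
    (fun _ _ => mul1 hp hQ) ?_ ?_).trans ?_
  · intro f hf
    rw [mem_filter, mem_box] at hf
    exact ⟨mem_product.2 ⟨hf.1 1, hf.1 2⟩, mem_filter.2 ⟨hf.1 0, hf.2⟩⟩
  · intro f _ g _ h1 h2
    simp only [Prod.mk.injEq] at h1
    exact ext3 h2 h1.1 h1.2
  · rw [card_product, card_I]
    exact le_of_eq (by ring)

/-- the value is a multiple of `p` -/
theorem card_F1 {Q H p : ℕ} (hp : 0 < p) (hQ : H ≤ Q * p) (u : ℤ) :
    ((box H).filter fun f => (p : ℤ) ∣ vl f u).card ≤ (2 * H + 1) ^ 2 * (2 * Q + 1) := by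
  classical
  refine (fib_le ((box H).filter fun f => (p : ℤ) ∣ vl f u) (I H ×ˢ I H)
    (fun a => (I H).filter fun y => (p : ℤ) ∣ (a.1 * u ^ 2 + a.2 * u) + y) (fun f => (f 0, f 1))
    (fun f => f 2) (2 * Q + 1) (fun a _ => add1 hp hQ _) ?_ ?_).trans ?_
  · intro f hf
    rw [mem_filter, mem_box] at hf
    exact ⟨mem_product.2 ⟨hf.1 0, hf.1 1⟩, mem_filter.2 ⟨hf.1 2, hf.2⟩⟩
  · intro f _ g _ h1 h2
    simp only [Prod.mk.injEq] at h1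
    exact ext3 h1.1 h1.2 h2
  · rw [card_product, card_I]
    exact le_of_eq (by ring)

/-- both -/
theorem card_F01 {Q H p : ℕ} (hp : 0 < p) (hQ : H ≤ Q * p) (u : ℤ) :
    ((box H).filter fun f => (p : ℤ) ∣ f 0 ∧ (p : ℤ) ∣ vl f u).card ≤
      (2 * Q + 1) * (2 * H + 1) * (2 * Q + 1) := by
  classical
  refine (fib_le ((box H).filter fun f => (p : ℤ) ∣ f 0 ∧ (p : ℤ) ∣ vl f u)
    (((I H).filter fun y => (p : ℤ) ∣ y) ×ˢ I H)
    (fun a => (I H).filter fun y => (p : ℤ) ∣ (a.1 * u ^ 2 + a.2 * u) + y) (fun f => (f 0, f 1))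
    (fun f => f 2) (2 * Q + 1) (fun a _ => add1 hp hQ _) ?_ ?_).trans ?_
  · intro f hf
    rw [mem_filter, mem_box] at hf
    exact ⟨mem_product.2 ⟨mem_filter.2 ⟨hf.1 0, hf.2.1⟩, hf.1 1⟩, mem_filter.2 ⟨hf.1 2, hf.2.2⟩⟩
  · intro f _ g _ h1 h2
    simp only [Prod.mk.injEq] at h1
    exact ext3 h1.1 h1.2 h2
  · rw [card_product, card_I]
    gcongr
    exact mul1 hp hQ

/-- the pairs for one prime -/
theorem card_p {Q H p : ℕ} (hp : p.Prime) (hQ : H ≤ Q * p) (u : ℤ) :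
    ((box H ×ˢ box H).filter fun q : (Fin 3 → ℤ) × (Fin 3 → ℤ) =>
      (p : ℤ) ∣ q.1 0 * q.2 0 ∧ (p : ℤ) ∣ vl q.1 u * vl q.2 u).card ≤
      4 * ((2 * Q + 1) ^ 2 * (2 * H + 1) ^ 4) := by
  classical
  have hpi := Nat.prime_iff_prime_int.mp hp
  have hsub : ((box H ×ˢ box H).filter fun q : (Fin 3 → ℤ) × (Fin 3 → ℤ) =>
      (p : ℤ) ∣ q.1 0 * q.2 0 ∧ (p : ℤ) ∣ vl q.1 u * vl q.2 u) ⊆
      ((((box H).filter fun f => (p : ℤ) ∣ f 0 ∧ (p : ℤ) ∣ vl f u) ×ˢ box H) ∪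
        (((box H).filter fun f => (p : ℤ) ∣ f 0) ×ˢ ((box H).filter fun f => (p : ℤ) ∣ vl f u))) ∪
      ((((box H).filter fun f => (p : ℤ) ∣ vl f u) ×ˢ ((box H).filter fun f => (p : ℤ) ∣ f 0)) ∪
        (box H ×ˢ ((box H).filter fun f => (p : ℤ) ∣ f 0 ∧ (p : ℤ) ∣ vl f u))) := by
    intro q hq
    simp only [mem_filter, mem_product] at hq
    obtain ⟨⟨h1, h2⟩, h3, h4⟩ := hq
    simp only [mem_union, mem_product, mem_filter]
    rcases (hpi.dvd_mul).mp h3 with h5 | h5 <;> rcases (hpi.dvd_mul).mp h4 with h6 | h6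
    · exact Or.inl (Or.inl ⟨⟨h1, h5, h6⟩, h2⟩)
    · exact Or.inl (Or.inr ⟨⟨h1, h5⟩, h2, h6⟩)
    · exact Or.inr (Or.inl ⟨⟨h1, h6⟩, h2, h5⟩)
    · exact Or.inr (Or.inr ⟨h1, h2, h5, h6⟩)
  refine (card_le_card hsub).trans ?_
  refine (card_union_le _ _).trans ?_
  refine (add_le_add (card_union_le _ _) (card_union_le _ _)).trans ?_
  simp only [card_product, card_box]
  have a0 := card_F0 (Q := Q) (H := H) hp.pos hQ
  have a1 := card_F1 (Q := Q) (H := H) hp.pos hQ u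
  have a2 := card_F01 (Q := Q) (H := H) hp.pos hQ u
  have b1 : ((box H).filter fun f => (p : ℤ) ∣ f 0 ∧ (p : ℤ) ∣ vl f u).card * (2 * H + 1) ^ 3 ≤
      (2 * Q + 1) ^ 2 * (2 * H + 1) ^ 4 := by
    refine (Nat.mul_le_mul_right _ a2).trans (le_of_eq ?_)
    ring
  have b2 : ((box H).filter fun f => (p : ℤ) ∣ f 0).card * ((box H).filter fun f => (p : ℤ) ∣ vl f u).card ≤
      (2 * Q + 1) ^ 2 * (2 * H + 1) ^ 4 := by
    refine (Nat.mul_le_mul a0 a1).trans (le_of_eq ?_)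
    ring
  have b3 : ((box H).filter fun f => (p : ℤ) ∣ vl f u).card * ((box H).filter fun f => (p : ℤ) ∣ f 0).card ≤
      (2 * Q + 1) ^ 2 * (2 * H + 1) ^ 4 := by
    rw [mul_comm]
    exact b2
  have b4 : (2 * H + 1) ^ 3 * ((box H).filter fun f => (p : ℤ) ∣ f 0 ∧ (p : ℤ) ∣ vl f u).card ≤
      (2 * Q + 1) ^ 2 * (2 * H + 1) ^ 4 := by
    rw [mul_comm]
    exact b1
  omega

theorem t : Pool.Agent.H14G.S_BIG := by
  classical
  intro Q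
  refine ⟨324 * (2 * (Q : ℝ) + 1) ^ 2, by positivity, ?_⟩
  intro α H hH
  have hsub : ((box H ×ˢ box H).filter fun q : (Fin 3 → ℤ) × (Fin 3 → ℤ) => q.1 0 ≠ 0 ∧ q.2 0 ≠ 0 ∧
      ∃ p : ℕ, p.Prime ∧ H ≤ Q * p ∧ (p : ℤ) ∣ q.1 0 * q.2 0 ∧
        (p : ℤ) ∣ vl q.1 (α p) * vl q.2 (α p)) ⊆
      ((Icc 1 H).filter fun p => p.Prime ∧ H ≤ Q * p).biUnion fun p =>
        (box H ×ˢ box H).filter fun q : (Fin 3 → ℤ) × (Fin 3 → ℤ) =>
          (p : ℤ) ∣ q.1 0 * q.2 0 ∧ (p : ℤ) ∣ vl q.1 (α p) * vl q.2 (α p) := by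
    intro q hq
    simp only [mem_filter, mem_product] at hq
    obtain ⟨⟨h1, h2⟩, h3, h4, p, h5, h6, h7, h8⟩ := hq
    simp only [mem_biUnion, mem_filter, mem_product, mem_Icc]
    refine ⟨p, ⟨⟨h5.one_lt.le, ?_⟩, h5, h6⟩, ⟨h1, h2⟩, h7, h8⟩
    have hle : ∀ x : ℤ, x ∈ I H → x ≠ 0 → (p : ℤ) ∣ x → p ≤ H := by
      intro x hx hx0 hpx
      rw [mem_I] at hx
      have h9 : p ≤ x.natAbs := Nat.le_of_dvd (Int.natAbs_pos.2 hx0) (Int.natCast_dvd.1 hpx)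
      omega
    rw [mem_box] at h1 h2
    rcases ((Nat.prime_iff_prime_int.mp h5).dvd_mul).mp h7 with h | h
    · exact hle _ (h1 0) h3 h
    · exact hle _ (h2 0) h4 h
  have hcard : ((box H ×ˢ box H).filter fun q : (Fin 3 → ℤ) × (Fin 3 → ℤ) => q.1 0 ≠ 0 ∧ q.2 0 ≠ 0 ∧
      ∃ p : ℕ, p.Prime ∧ H ≤ Q * p ∧ (p : ℤ) ∣ q.1 0 * q.2 0 ∧
        (p : ℤ) ∣ vl q.1 (α p) * vl q.2 (α p)).card ≤
      H * (4 * ((2 * Q + 1) ^ 2 * (2 * H + 1) ^ 4)) := by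
    refine (card_le_card hsub).trans ?_
    refine (card_biUnion_le).trans ?_
    refine (Finset.sum_le_card_nsmul _ _ (4 * ((2 * Q + 1) ^ 2 * (2 * H + 1) ^ 4)) ?_).trans ?_
    · intro p hp
      rw [mem_filter] at hp
      exact card_p hp.2.1 hp.2.2 _
    · rw [smul_eq_mul]
      refine Nat.mul_le_mul_right _ ?_
      refine (card_filter_le _ _).trans ?_
      simp
  have hH1 : (1 : ℝ) ≤ H := by
    have : 1 ≤ H := by omega
    exact_mod_cast this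
  have h2H : 2 * (H : ℝ) + 1 ≤ 3 * H := by linarith
  have hpow : (2 * (H : ℝ) + 1) ^ 4 ≤ (3 * (H : ℝ)) ^ 4 := by gcongr
  have hc : (((((box H ×ˢ box H).filter fun q : (Fin 3 → ℤ) × (Fin 3 → ℤ) => q.1 0 ≠ 0 ∧ q.2 0 ≠ 0 ∧
      ∃ p : ℕ, p.Prime ∧ H ≤ Q * p ∧ (p : ℤ) ∣ q.1 0 * q.2 0 ∧
        (p : ℤ) ∣ vl q.1 (α p) * vl q.2 (α p)).card : ℕ)) : ℝ) ≤
      H * (4 * ((2 * (Q : ℝ) + 1) ^ 2 * (2 * (H : ℝ) + 1) ^ 4)) := by
    have := hcard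
    exact_mod_cast this
  refine le_trans (le_of_eq ?_) (hc.trans ?_)
  · congr!
  · calc (H : ℝ) * (4 * ((2 * (Q : ℝ) + 1) ^ 2 * (2 * (H : ℝ) + 1) ^ 4))
        ≤ (H : ℝ) * (4 * ((2 * (Q : ℝ) + 1) ^ 2 * (3 * (H : ℝ)) ^ 4)) := by gcongr
      _ = 324 * (2 * (Q : ℝ) + 1) ^ 2 * (H : ℝ) ^ 5 := by ring

end Pool.Agent.H14G.BIG
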