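import Pool.Agent.H14G.Stm
import Pool.Agent.H14F.REDC

/-!
# Project HB (helper14), stub CLS: the number of the residue classes modulo `p` with `Bd`

Author: helper69.
-/

set_option autoImplicit false

namespace Pool.Agent.H14G.CLS

open Finset Pool.Agent.H14F

theorem mem_cls {p : ℕ} {f : Fin 3 → ℤ} : f ∈ cls p ↔ ∀ i, 0 ≤ f i ∧ f i < p := by
  unfold cls
  rw [Fintype.mem_piFinset]
  simp only [mem_Ico]

/-- two representatives which are congruent are equal -/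
theorem eq_of_dvd {p : ℕ} {a b : ℤ} (ha : 0 ≤ a ∧ a < p) (hb : 0 ≤ b ∧ b < p)
    (h : (p : ℤ) ∣ a - b) : a = b := by
  have h1 : |a - b| < p := by
    rw [abs_lt]
    constructor <;> omega
  have h2 := Int.eq_zero_of_abs_lt_dvd h h1
  omega

theorem card_Ico (p : ℕ) : (Ico (0 : ℤ) p).card = p := by
  rw [Int.card_Ico, sub_zero, Int.toNat_natCast]

theorem card_cls (p : ℕ) : (cls p).card = p ^ 3 := by
  unfold cls
  rw [Fintype.card_piFinset]
  simp only [card_Ico, prod_const, card_univ, Fintype.card_fin]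

theorem dvd0 {p : ℕ} {f : Fin 3 → ℤ} (hf : f ∈ cls p) (h : (p : ℤ) ∣ f 0) : f 0 = 0 := by
  have h1 := mem_cls.1 hf 0
  refine eq_of_dvd h1 ⟨le_rfl, lt_of_le_of_lt h1.1 h1.2⟩ ?_
  rwa [sub_zero]

open Classical in
/-- `p` divides `f 0` -/
theorem card1 (p : ℕ) : ((cls p).filter fun f => (p : ℤ) ∣ f 0).card ≤ p ^ 2 := by
  have h : ((cls p).filter fun f => (p : ℤ) ∣ f 0).card ≤ (Ico (0 : ℤ) p ×ˢ Ico (0 : ℤ) p).card := by
    refine card_le_card_of_injOn (fun f => (f 1, f 2)) ?_ ?_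
    · intro f hf
      rw [mem_coe, mem_filter] at hf
      have h1 := mem_cls.1 hf.1
      rw [mem_coe, mem_product, mem_Ico, mem_Ico]
      exact ⟨h1 1, h1 2⟩
    · intro f hf f' hf' he
      rw [mem_coe, mem_filter] at hf hf'
      have e := Prod.mk.inj he
      have e0 := dvd0 hf.1 hf.2
      have e0' := dvd0 hf'.1 hf'.2
      funext i
      fin_cases i
      · exact e0.trans e0'.symm
      · exact e.1
      · exact e.2
  rwa [card_product, card_Ico, ← sq] at h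

/-- `f 2` is determined by `f 0`, `f 1` -/
theorem det2 {p : ℕ} {u : ℤ} {f f' : Fin 3 → ℤ} (hf : f ∈ cls p) (hf' : f' ∈ cls p)
    (h : (p : ℤ) ∣ vl f u) (h' : (p : ℤ) ∣ vl f' u) (e0 : f 0 = f' 0) (e1 : f 1 = f' 1) :
    f = f' := by
  have e2 : f 2 = f' 2 := by
    refine eq_of_dvd (mem_cls.1 hf 2) (mem_cls.1 hf' 2) ?_
    have h1 := dvd_sub h h'
    unfold vl at h1
    rw [e0, e1] at h1
    have e : f' 0 * u ^ 2 + f' 1 * u + f 2 - (f' 0 * u ^ 2 + f' 1 * u + f' 2) = f 2 - f' 2 := by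
      ring
    rwa [e] at h1
  funext i
  fin_cases i
  · exact e0
  · exact e1
  · exact e2

open Classical in
/-- `p` divides `f(u)` -/
theorem card2 (p : ℕ) (u : ℤ) : ((cls p).filter fun f => (p : ℤ) ∣ vl f u).card ≤ p ^ 2 := by
  have h : ((cls p).filter fun f => (p : ℤ) ∣ vl f u).card ≤
      (Ico (0 : ℤ) p ×ˢ Ico (0 : ℤ) p).card := by
    refine card_le_card_of_injOn (fun f => (f 0, f 1)) ?_ ?_
    · intro f hf
      rw [mem_coe, mem_filter] at hf
      have h1 := mem_cls.1 hf.1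
      rw [mem_coe, mem_product, mem_Ico, mem_Ico]
      exact ⟨h1 0, h1 1⟩
    · intro f hf f' hf' he
      rw [mem_coe, mem_filter] at hf hf'
      have e := Prod.mk.inj he
      exact det2 hf.1 hf'.1 hf.2 hf'.2 e.1 e.2
  rwa [card_product, card_Ico, ← sq] at h

open Classical in
/-- `p` divides `f 0` and `f(u)` -/
theorem card3 (p : ℕ) (u : ℤ) :
    ((cls p).filter fun f => (p : ℤ) ∣ f 0 ∧ (p : ℤ) ∣ vl f u).card ≤ p := by
  have h : ((cls p).filter fun f => (p : ℤ) ∣ f 0 ∧ (p : ℤ) ∣ vl f u).card ≤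
      (Ico (0 : ℤ) p).card := by
    refine card_le_card_of_injOn (fun f => f 1) ?_ ?_
    · intro f hf
      rw [mem_coe, mem_filter] at hf
      have h1 := mem_cls.1 hf.1
      rw [mem_coe, mem_Ico]
      exact h1 1
    · intro f hf f' hf' he
      rw [mem_coe, mem_filter] at hf hf'
      have e0 := dvd0 hf.1 hf.2.1
      have e0' := dvd0 hf'.1 hf'.2.1
      exact det2 hf.1 hf'.1 hf.2.2 hf'.2.2 (e0.trans e0'.symm) he
  rwa [card_Ico] at h

/-- **CLS.** -/
theorem t : S_CLS := by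
  classical
  intro p u hp hp3
  have hpZ : Prime (p : ℤ) := Nat.prime_iff_prime_int.1 hp
  have hR := REDC.t p hp hp3
  have key : ((cls p ×ˢ cls p).filter fun q : (Fin 3 → ℤ) × (Fin 3 → ℤ) => Bd p u q.1 q.2) ⊆
      (((cls p ×ˢ cls p).filter fun q : (Fin 3 → ℤ) × (Fin 3 → ℤ) => Red p q.1 q.2) ∪
      ((((cls p).filter fun f => (p : ℤ) ∣ f 0 ∧ (p : ℤ) ∣ vl f u) ×ˢ cls p) ∪
      (cls p ×ˢ ((cls p).filter fun f => (p : ℤ) ∣ f 0 ∧ (p : ℤ) ∣ vl f u)))) ∪
      ((((cls p).filter fun f => (p : ℤ) ∣ f 0) ×ˢ ((cls p).filter fun f => (p : ℤ) ∣ vl f u)) ∪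
      (((cls p).filter fun f => (p : ℤ) ∣ vl f u) ×ˢ ((cls p).filter fun f => (p : ℤ) ∣ f 0))) := by
    intro q hq
    rw [mem_filter, mem_product] at hq
    obtain ⟨⟨hf, hg⟩, hb⟩ := hq
    simp only [mem_union, mem_filter, mem_product]
    rcases hb with hb | ⟨h0, h1⟩
    · exact Or.inl (Or.inl ⟨⟨hf, hg⟩, hb⟩)
    · rcases hpZ.dvd_or_dvd h0 with h0 | h0
      · rcases hpZ.dvd_or_dvd h1 with h1 | h1
        · exact Or.inl (Or.inr (Or.inl ⟨⟨hf, h0, h1⟩, hg⟩))
        · exact Or.inr (Or.inl ⟨⟨hf, h0⟩, hg, h1⟩)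
      · rcases hpZ.dvd_or_dvd h1 with h1 | h1
        · exact Or.inr (Or.inr ⟨⟨hf, h1⟩, hg, h0⟩)
        · exact Or.inl (Or.inr (Or.inr ⟨hf, hg, h0, h1⟩))
  refine (card_le_card key).trans ?_
  refine (card_union_le _ _).trans ?_
  refine (Nat.add_le_add (card_union_le _ _) (card_union_le _ _)).trans ?_
  refine (Nat.add_le_add (Nat.add_le_add hR (card_union_le _ _)) le_rfl).trans ?_
  rw [card_product, card_product, card_product, card_product, card_cls]
  have h1 := card1 p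
  have h2 := card2 p u
  have h3 := card3 p u
  have e1 := Nat.mul_le_mul_right (p ^ 3) h3
  have e2 := Nat.mul_le_mul_left (p ^ 3) h3
  have e3 := Nat.mul_le_mul h1 h2
  have e4 := Nat.mul_le_mul h2 h1
  have a1 : p * p ^ 3 = p ^ 4 := by ring
  have a2 : p ^ 3 * p = p ^ 4 := by ring
  have a3 : p ^ 2 * p ^ 2 = p ^ 4 := by ring
  rw [a1] at e1
  rw [a2] at e2
  rw [a3] at e3 e4
  omega

end Pool.Agent.H14G.CLS
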