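import Pool.Agent.H14G.Stm
import Pool.Agent.H14F.REDC
import Pool.Agent.H14F.LARGE
import Pool.Agent.H14F.DEG
import Pool.Agent.H14Q.Loc

/-!
# A positive proportion of the curves `y² = f(F(x)) g(F(x))` is everywhere locally soluble

By helper14, after `Pool/Agent/H14F/ELS.lean` (helper20).
-/

set_option autoImplicit false
set_option linter.all false

namespace Pool.Agent.H14G

open Finset Polynomial Pool.Agent.H14F

/-- the form `q (x₀ u² + s x₁ u w + x₂ w²) + w²` -/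
def T (q : ℕ) (s : ℤ) (x : Fin 3 → ℤ) : Fin 3 → ℤ := fun i =>
  (q : ℤ) * ((if i = 1 then s else 1) * x i) + (if i = 2 then 1 else 0)

/-- reduction -/
def rd (p : ℕ) (x : Fin 3 → ℤ) : Fin 3 → ℤ := fun i => x i % (p : ℤ)

/-- quotient -/
def qu (p : ℕ) (x : Fin 3 → ℤ) : Fin 3 → ℤ := fun i => x i / (p : ℤ)

theorem mem_cls {m : ℕ} {x : Fin 3 → ℤ} : x ∈ cls m ↔ ∀ i, 0 ≤ x i ∧ x i < m := by
  unfold cls
  simp [Fintype.mem_piFinset]

theorem rd_mem {p : ℕ} (hp : 0 < p) (x : Fin 3 → ℤ) : rd p x ∈ cls p := by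
  rw [mem_cls]
  intro i
  have : (0 : ℤ) < p := by exact_mod_cast hp
  exact ⟨Int.emod_nonneg _ this.ne', Int.emod_lt_of_pos _ this⟩

theorem qu_mem {p N : ℕ} (hp : 0 < p) {x : Fin 3 → ℤ} (hx : x ∈ cls N) : qu p x ∈ cls (N / p + 1) := by
  rw [mem_cls] at hx ⊢
  intro i
  have hp' : (0 : ℤ) < p := by exact_mod_cast hp
  refine ⟨Int.ediv_nonneg (hx i).1 hp'.le, ?_⟩
  have h1 : x i / (p : ℤ) ≤ (N : ℤ) / p := Int.ediv_le_ediv hp' (hx i).2.le
  simp only [qu]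
  push_cast
  omega

theorem red_congr {p : ℕ} {f f' g g' : Fin 3 → ℤ} (hf : ∀ i, (p : ℤ) ∣ f i - f' i)
    (hg : ∀ i, (p : ℤ) ∣ g i - g' i) (h : Red p f g) : Red p f' g' := by
  have key : ∀ i j, (p : ℤ) ∣ f i * g j - f j * g i → (p : ℤ) ∣ f' i * g' j - f' j * g' i := by
    intro i j h
    have e : f' i * g' j - f' j * g' i = (f i * g j - f j * g i) - (f i - f' i) * g j -
        (g j - g' j) * f' i + (f j - f' j) * g i + (g i - g' i) * f' j := by ring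
    rw [e]
    exact dvd_add (dvd_add (dvd_sub (dvd_sub h ((hf i).mul_right _)) ((hg j).mul_right _))
      ((hf j).mul_right _)) ((hg i).mul_right _)
  have kd : ∀ f f' : Fin 3 → ℤ, (∀ i, (p : ℤ) ∣ f i - f' i) → (p : ℤ) ∣ disc f → (p : ℤ) ∣ disc f' := by
    intro f f' hf h
    have e : disc f' = disc f - (f 1 - f' 1) * (f 1 + f' 1) + 4 * ((f 0 - f' 0) * f 2) +
        4 * ((f 2 - f' 2) * f' 0) := by
      simp only [disc]
      ring
    rw [e]
    exact dvd_add (dvd_add (dvd_sub h ((hf 1).mul_right _)) (((hf 0).mul_right _).mul_left _))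
      (((hf 2).mul_right _).mul_left _)
  rcases h with ⟨h1, h2, h3⟩ | ⟨h1, h2⟩
  · exact Or.inl ⟨key 0 1 h1, key 0 2 h2, key 1 2 h3⟩
  · exact Or.inr ⟨kd f f' hf h1, kd g g' hg h2⟩

theorem dvd_mul_congr {p a a' b b' : ℤ} (ha : p ∣ a - a') (hb : p ∣ b - b') (h : p ∣ a * b) :
    p ∣ a' * b' := by
  have e : a' * b' = a * b - (a - a') * b - (b - b') * a' := by ring
  rw [e]
  exact dvd_sub (dvd_sub h (ha.mul_right _)) (hb.mul_right _)

theorem vl_congr {p : ℤ} {f f' : Fin 3 → ℤ} (u : ℤ) (hf : ∀ i, p ∣ f i - f' i) :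
    p ∣ vl f u - vl f' u := by
  have e : vl f u - vl f' u = (f 0 - f' 0) * u ^ 2 + (f 1 - f' 1) * u + (f 2 - f' 2) := by
    unfold vl
    ring
  rw [e]
  exact dvd_add (dvd_add ((hf 0).mul_right _) ((hf 1).mul_right _)) (hf 2)

theorem bd_congr {p : ℕ} {u : ℤ} {f f' g g' : Fin 3 → ℤ} (hf : ∀ i, (p : ℤ) ∣ f i - f' i)
    (hg : ∀ i, (p : ℤ) ∣ g i - g' i) (h : Bd p u f g) : Bd p u f' g' := by
  rcases h with h | ⟨h1, h2⟩
  · exact Or.inl (red_congr hf hg h)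
  · exact Or.inr ⟨dvd_mul_congr (hf 0) (hg 0) h1,
      dvd_mul_congr (vl_congr u hf) (vl_congr u hg) h2⟩

theorem dvd_sub_rd (p : ℕ) (x : Fin 3 → ℤ) (i : Fin 3) : (p : ℤ) ∣ x i - rd p x i :=
  Int.dvd_self_sub_emod

theorem sg_mul {s : ℤ} (hs : s * s = 1) (i : Fin 3) :
    (if i = 1 then s else 1) * (if i = 1 then s else 1) = 1 := by
  split_ifs
  · exact hs
  · norm_num

theorem T_inj_mod {p q : ℕ} {s : ℤ} (hs : s * s = 1) (hp : p.Prime) (hQ : ¬ p ∣ q)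
    {x y : Fin 3 → ℤ} (h : rd p (T q s x) = rd p (T q s y)) (h' : qu p x = qu p y) : x = y := by
  funext i
  have h1 : (p : ℤ) ∣ T q s x i - T q s y i := by
    have a := dvd_sub_rd p (T q s x) i
    have b := dvd_sub_rd p (T q s y) i
    rw [h] at a
    have := dvd_sub a b
    have e : T q s x i - rd p (T q s y) i - (T q s y i - rd p (T q s y) i) =
      T q s x i - T q s y i := by ring
    rwa [e] at this
  have h2 : (p : ℤ) ∣ (q : ℤ) * ((if i = 1 then s else 1) * (x i - y i)) := by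
    have e : T q s x i - T q s y i = (q : ℤ) * ((if i = 1 then s else 1) * (x i - y i)) := by
      simp only [T]
      ring
    rwa [e] at h1
  have hpz : Prime (p : ℤ) := Nat.prime_iff_prime_int.1 hp
  have h3' : (p : ℤ) ∣ (if i = 1 then s else 1) * (x i - y i) := by
    refine (hpz.dvd_or_dvd h2).resolve_left ?_
    intro h
    exact hQ (by exact_mod_cast h)
  have h3 : (p : ℤ) ∣ x i - y i := by
    have e : x i - y i = (if i = 1 then s else 1) * ((if i = 1 then s else 1) * (x i - y i)) := by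
      rw [← mul_assoc, sg_mul hs, one_mul]
    rw [e]
    exact h3'.mul_left _
  have h4 : x i / (p : ℤ) = y i / (p : ℤ) := congrFun h' i
  have h5 : x i % (p : ℤ) = y i % (p : ℤ) :=
    Int.emod_eq_emod_iff_emod_sub_eq_zero.2 (Int.emod_eq_zero_of_dvd h3)
  rw [← Int.mul_ediv_add_emod (x i) p, ← Int.mul_ediv_add_emod (y i) p, h4, h5]

theorem T_inj {q : ℕ} {s : ℤ} (hs : s * s = 1) (hq : 0 < q) {x y : Fin 3 → ℤ}
    (h : T q s x = T q s y) : x = y := by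
  funext i
  have h1 := congrFun h i
  simp only [T] at h1
  have h2 : (q : ℤ) * ((if i = 1 then s else 1) * x i) =
      q * ((if i = 1 then s else 1) * y i) := by linarith
  have hq' : (q : ℤ) ≠ 0 := by exact_mod_cast hq.ne'
  have h3 := mul_left_cancel₀ hq' h2
  have h4 : (if i = 1 then s else 1) * ((if i = 1 then s else 1) * x i) =
      (if i = 1 then s else 1) * ((if i = 1 then s else 1) * y i) := by rw [h3]
  rw [← mul_assoc, ← mul_assoc, sg_mul hs, one_mul, one_mul] at h4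
  exact h4

open Classical in
/-- the pairs which are bad modulo `p` -/
theorem count_bd (hC : S_CLS) {p N q : ℕ} {s u : ℤ} (hs : s * s = 1) (hp : p.Prime) (h3 : 3 ≤ p)
    (hQ : ¬ p ∣ q) :
    ((cls N ×ˢ cls N).filter fun z : (Fin 3 → ℤ) × (Fin 3 → ℤ) =>
      Bd p u (T q s z.1) (T q s z.2)).card ≤ 7 * p ^ 4 * (N / p + 1) ^ 6 := by
  have h1 := hC p u hp h3
  have hinj : ((cls N ×ˢ cls N).filter fun z : (Fin 3 → ℤ) × (Fin 3 → ℤ) =>
      Bd p u (T q s z.1) (T q s z.2)).card ≤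
      (((cls p ×ˢ cls p).filter fun z : (Fin 3 → ℤ) × (Fin 3 → ℤ) => Bd p u z.1 z.2) ×ˢ
        (cls (N / p + 1) ×ˢ cls (N / p + 1))).card := by
    refine Finset.card_le_card_of_injOn
      (fun z => ((rd p (T q s z.1), rd p (T q s z.2)), (qu p z.1, qu p z.2))) ?_ ?_
    · intro z hz
      rw [Finset.mem_coe, mem_filter, mem_product] at hz
      rw [Finset.mem_coe, mem_product, mem_filter, mem_product, mem_product]
      refine ⟨⟨⟨rd_mem hp.pos _, rd_mem hp.pos _⟩, ?_⟩, qu_mem hp.pos hz.1.1, qu_mem hp.pos hz.1.2⟩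
      exact bd_congr (dvd_sub_rd p _) (dvd_sub_rd p _) hz.2
    · intro z _ z' _ h
      simp only [Prod.mk.injEq] at h
      obtain ⟨⟨a1, a2⟩, a3, a4⟩ := h
      exact Prod.ext (T_inj_mod hs hp hQ a1 a3) (T_inj_mod hs hp hQ a2 a4)
  refine hinj.trans ?_
  rw [card_product, card_product, REDC.card_cls]
  calc _ ≤ 7 * p ^ 4 * ((N / p + 1) ^ 3 * (N / p + 1) ^ 3) := Nat.mul_le_mul_right _ h1
    _ = _ := by ring

theorem sum_sq_le (N : ℕ) : ∑ p ∈ (Icc 23 N).filter Nat.Prime, (1 : ℝ) / (p : ℝ) ^ 2 ≤ 1 / 22 := by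
  have key : ∀ N : ℕ, 22 ≤ N → ∑ n ∈ Icc 23 N, (1 : ℝ) / (n : ℝ) ^ 2 ≤ 1 / 22 - 1 / N := by
    intro N hN
    induction N, hN using Nat.le_induction with
    | base => norm_num
    | succ n hn ih =>
      rw [Finset.sum_Icc_succ_top (by omega)]
      have hn0 : (0 : ℝ) < n := by
        have : (22 : ℝ) ≤ n := by exact_mod_cast hn
        linarith
      have : (1 : ℝ) / ((n + 1 : ℕ) : ℝ) ^ 2 ≤ 1 / n - 1 / ((n + 1 : ℕ) : ℝ) := by
        push_cast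
        rw [div_sub_div _ _ hn0.ne' (by positivity), div_le_div_iff₀ (by positivity) (by positivity)]
        nlinarith
      linarith
  refine le_trans (Finset.sum_le_sum_of_subset_of_nonneg (Finset.filter_subset _ _) fun i _ _ => by positivity) ?_
  by_cases hN : 22 ≤ N
  · refine (key N hN).trans ?_
    have : (0 : ℝ) ≤ 1 / N := by positivity
    linarith
  · rw [Finset.Icc_eq_empty (by omega)]
    norm_num

open Classical in
/-- the pairs with a small bad prime -/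
theorem count_small (hC : S_CLS) {q P : ℕ} {s : ℤ} (hs : s * s = 1) (α : ℕ → ℤ) (hP : 23 ≤ P)
    (hq : ∀ p : ℕ, p.Prime → P < p → ¬ p ∣ q) (N : ℕ) :
    (((cls N ×ˢ cls N).filter fun z : (Fin 3 → ℤ) × (Fin 3 → ℤ) => ∃ p : ℕ, p.Prime ∧ P < p ∧
      100 * p ≤ N ∧ Bd p (α p) (T q s z.1) (T q s z.2)).card : ℝ) ≤ 1 / 2 * (N : ℝ) ^ 6 := by
  set S := (Icc 23 N).filter Nat.Prime with hS
  have hsub : ((cls N ×ˢ cls N).filter fun z : (Fin 3 → ℤ) × (Fin 3 → ℤ) => ∃ p : ℕ, p.Prime ∧ P < p ∧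
      100 * p ≤ N ∧ Bd p (α p) (T q s z.1) (T q s z.2)) ⊆
      (S.filter fun p => 100 * p ≤ N ∧ P < p).biUnion fun p =>
        (cls N ×ˢ cls N).filter fun z : (Fin 3 → ℤ) × (Fin 3 → ℤ) =>
          Bd p (α p) (T q s z.1) (T q s z.2) := by
    intro z hz
    rw [mem_filter] at hz
    obtain ⟨hz1, p, hp, h23, hpN, hr⟩ := hz
    rw [mem_biUnion]
    refine ⟨p, ?_, mem_filter.2 ⟨hz1, hr⟩⟩
    rw [mem_filter, hS, mem_filter, mem_Icc]
    exact ⟨⟨⟨by omega, by omega⟩, hp⟩, hpN, h23⟩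
  have h1 := (Finset.card_le_card hsub).trans Finset.card_biUnion_le
  have h2 : (((cls N ×ˢ cls N).filter fun z : (Fin 3 → ℤ) × (Fin 3 → ℤ) => ∃ p : ℕ, p.Prime ∧ P < p ∧
      100 * p ≤ N ∧ Bd p (α p) (T q s z.1) (T q s z.2)).card : ℝ) ≤
      ∑ p ∈ S.filter fun p => 100 * p ≤ N ∧ P < p, 8 * (N : ℝ) ^ 6 * (1 / (p : ℝ) ^ 2) := by
    have h1' := (Nat.cast_le (α := ℝ)).2 h1
    refine h1'.trans ?_
    rw [Nat.cast_sum]
    refine Finset.sum_le_sum fun p hp => ?_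
    rw [mem_filter, hS, mem_filter, mem_Icc] at hp
    obtain ⟨⟨⟨h23, _⟩, hpp⟩, hpN, hPp⟩ := hp
    have h3 := count_bd hC (N := N) (u := α p) hs hpp (by omega) (hq p hpp hPp)
    refine le_trans (by exact_mod_cast h3 : _ ≤ ((7 * p ^ 4 * (N / p + 1) ^ 6 : ℕ) : ℝ)) ?_
    push_cast
    have hp0 : (0 : ℝ) < p := by exact_mod_cast hpp.pos
    have h4 : ((N / p : ℕ) : ℝ) ≤ (N : ℝ) / p := Nat.cast_div_le
    have h5 : (p : ℝ) ≤ N / 100 := by
      have : (100 : ℝ) * p ≤ N := by exact_mod_cast hpN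
      linarith
    have h6 : ((N / p : ℕ) : ℝ) + 1 ≤ 101 / 100 * N / p := by
      rw [le_div_iff₀ hp0]
      have : ((N / p : ℕ) : ℝ) * p ≤ N := by
        have := mul_le_mul_of_nonneg_right h4 hp0.le
        rwa [div_mul_cancel₀ _ hp0.ne'] at this
      nlinarith
    calc 7 * (p : ℝ) ^ 4 * (((N / p : ℕ) : ℝ) + 1) ^ 6 ≤
        7 * (p : ℝ) ^ 4 * (101 / 100 * N / p) ^ 6 := by
          gcongr
      _ = 7 * (101 / 100) ^ 6 * (N : ℝ) ^ 6 * (1 / (p : ℝ) ^ 2) := by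
          field_simp
      _ ≤ 8 * (N : ℝ) ^ 6 * (1 / (p : ℝ) ^ 2) := by
          have : (7 : ℝ) * (101 / 100) ^ 6 ≤ 8 := by norm_num
          have h0 : (0 : ℝ) ≤ (N : ℝ) ^ 6 * (1 / (p : ℝ) ^ 2) := by positivity
          nlinarith
  refine h2.trans ?_
  rw [← Finset.mul_sum]
  have h3 : ∑ p ∈ S.filter fun p => 100 * p ≤ N ∧ P < p, (1 : ℝ) / (p : ℝ) ^ 2 ≤ 1 / 22 :=
    le_trans (Finset.sum_le_sum_of_subset_of_nonneg (Finset.filter_subset _ _)
      fun i _ _ => by positivity) (sum_sq_le N)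
  have h0 : (0 : ℝ) ≤ (N : ℝ) ^ 6 := by positivity
  nlinarith

/-! ### Local solubility in the family -/

theorem T_zero (q : ℕ) (s : ℤ) (x : Fin 3 → ℤ) : T q s x 0 = (q : ℤ) * x 0 := by simp [T]
theorem T_one (q : ℕ) (s : ℤ) (x : Fin 3 → ℤ) : T q s x 1 = (q : ℤ) * (s * x 1) := by simp [T]
theorem T_two (q : ℕ) (s : ℤ) (x : Fin 3 → ℤ) : T q s x 2 = (q : ℤ) * x 2 + 1 := by simp [T]

theorem vl_T (q : ℕ) (s : ℤ) (x : Fin 3 → ℤ) (u : ℤ) :
    vl (T q s x) u = (q : ℤ) * (x 0 * u ^ 2 + x 1 * (s * u) + x 2) + 1 := by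
  unfold vl
  rw [T_zero, T_one, T_two]
  ring

theorem solF_of_square {F : ℤ[X]} {f g : Fin 3 → ℤ} {K : Type} [Field K]
    (h : IsSquare (((vl f (F.coeff 0) * vl g (F.coeff 0) : ℤ)) : K)) : SolF F f g K := by
  obtain ⟨y, hy⟩ := h
  refine ⟨0, y, ?_⟩
  have e : F.eval₂ (Int.castRingHom K) 0 = ((F.coeff 0 : ℤ) : K) := by
    rw [eval₂_at_zero]
    rfl
  rw [e]
  push_cast [vl] at hy
  simp only [ev]
  linear_combination -hy

theorem solF_small {F : ℤ[X]} {p q : ℕ} {s : ℤ} [hp : Fact p.Prime] (h8 : 8 ∣ q) (h : p ∣ q)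
    (x y : Fin 3 → ℤ) : SolF F (T q s x) (T q s y) ℚ_[p] := by
  apply solF_of_square
  rw [vl_T, vl_T]
  obtain ⟨a, ha⟩ : ∃ a, a = x 0 * (F.coeff 0) ^ 2 + x 1 * (s * (F.coeff 0)) + x 2 := ⟨_, rfl⟩
  obtain ⟨b, hb⟩ : ∃ b, b = y 0 * (F.coeff 0) ^ 2 + y 1 * (s * (F.coeff 0)) + y 2 := ⟨_, rfl⟩
  rw [← ha, ← hb]
  have e : ((q : ℤ) * a + 1) * ((q : ℤ) * b + 1) = (q : ℤ) * (q * a * b + a + b) + 1 := by ring
  rw [e]
  obtain ⟨w, hw⟩ : ∃ w, w = (q : ℤ) * a * b + a + b := ⟨_, rfl⟩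
  rw [← hw]
  by_cases h2 : p = 2
  · subst h2
    refine Pool.Agent.H14Q.isSquare_two ?_
    obtain ⟨r, hr⟩ := h8
    have : (q : ℤ) * w = 8 * ((r : ℤ) * w) := by
      rw [hr]
      push_cast
      ring
    rw [this]
    omega
  · have hpQ : (p : ℤ) ∣ (q : ℤ) := by exact_mod_cast h
    have h1 : (p : ℤ) ∣ (q : ℤ) * w := hpQ.mul_right _
    refine Pool.Agent.H14Q.isSquare_odd h2 ?_ ?_
    · intro hd
      have := (Int.dvd_add_right h1).1 hd
      have h3 : (p : ℤ) ≤ 1 := Int.le_of_dvd one_pos this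
      have := hp.out.one_lt
      omega
    · refine ⟨1, ?_⟩
      push_cast
      have : ((q : ℕ) : ZMod p) * (w : ZMod p) = 0 := by
        have := (ZMod.intCast_zmod_eq_zero_iff_dvd ((q : ℤ) * w) p).2 h1
        push_cast at this
        exact this
      rw [this]
      ring

theorem solF_real {F : ℤ[X]} {q : ℕ} {s : ℤ} (hs : 0 ≤ s * F.coeff 0) {x y : Fin 3 → ℤ}
    (hx : ∀ i, 0 ≤ x i) (hy : ∀ i, 0 ≤ y i) : SolF F (T q s x) (T q s y) ℝ := by
  apply solF_of_square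
  have key : ∀ z : Fin 3 → ℤ, (∀ i, 0 ≤ z i) → 0 ≤ vl (T q s z) (F.coeff 0) := by
    intro z hz
    rw [vl_T]
    have h1 : 0 ≤ z 0 * (F.coeff 0) ^ 2 := mul_nonneg (hz 0) (sq_nonneg _)
    have h2 : 0 ≤ z 1 * (s * F.coeff 0) := mul_nonneg (hz 1) hs
    have h3 := hz 2
    have h4 : (0 : ℤ) ≤ q := by positivity
    have h5 : 0 ≤ (q : ℤ) * (z 0 * (F.coeff 0) ^ 2 + z 1 * (s * F.coeff 0) + z 2) :=
      mul_nonneg h4 (by linarith)
    linarith
  have h : (0 : ℝ) ≤ ((vl (T q s x) (F.coeff 0) * vl (T q s y) (F.coeff 0) : ℤ) : ℝ) := by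
    exact_mod_cast mul_nonneg (key x hx) (key y hy)
  exact ⟨Real.sqrt _, (Real.mul_self_sqrt h).symm⟩

theorem T_mem_box {H N q : ℕ} {s : ℤ} (hs : s = 1 ∨ s = -1) (hq : 1 ≤ q) (hN : q * N ≤ H)
    {x : Fin 3 → ℤ} (hx : x ∈ cls N) : T q s x ∈ box H := by
  rw [mem_cls] at hx
  unfold Pool.Agent.H14F.box Pool.Agent.H14F.rbox
  rw [Fintype.mem_piFinset]
  have hQ : (1 : ℤ) ≤ q := by exact_mod_cast hq
  have h3 : (q : ℤ) * N ≤ H := by exact_mod_cast hN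
  have hb : ∀ i, 0 ≤ (q : ℤ) * x i ∧ (q : ℤ) * x i ≤ H - q := by
    intro i
    obtain ⟨h1, h2⟩ := hx i
    have h4 : (q : ℤ) * x i ≤ (q : ℤ) * (N - 1) := mul_le_mul_of_nonneg_left (by omega) (by linarith)
    exact ⟨by positivity, by linarith⟩
  intro i
  rw [mem_Icc]
  fin_cases i
  · show -(H : ℤ) ≤ T q s x 0 ∧ T q s x 0 ≤ H
    rw [T_zero]
    obtain ⟨h1, h2⟩ := hb 0
    constructor <;> linarith
  · show -(H : ℤ) ≤ T q s x 1 ∧ T q s x 1 ≤ H
    rw [T_one]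
    obtain ⟨h1, h2⟩ := hb 1
    rcases hs with rfl | rfl
    · rw [one_mul]
      constructor <;> linarith
    · have e : (q : ℤ) * (-1 * x 1) = -((q : ℤ) * x 1) := by ring
      rw [e]
      constructor <;> linarith
  · show -(H : ℤ) ≤ T q s x 2 ∧ T q s x 2 ≤ H
    rw [T_two]
    obtain ⟨h1, h2⟩ := hb 2
    constructor <;> linarith

/-- smooth and everywhere locally soluble -/
def GoodL (F : ℤ[X]) (f g : Fin 3 → ℤ) : Prop :=
  (f 0 ≠ 0 ∧ g 0 ≠ 0 ∧ Squarefree ((facF F f g 0 * facF F f g 1).map (Int.castRingHom ℚ))) ∧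
    SolF F f g ℝ ∧ ∀ (p : ℕ) [Fact p.Prime], SolF F f g ℚ_[p]

open Classical in
/-- the good pairs -/
noncomputable def G (F : ℤ[X]) (H : ℕ) : Finset ((Fin 3 → ℤ) × (Fin 3 → ℤ)) :=
  (box H ×ˢ box H).filter fun z : (Fin 3 → ℤ) × (Fin 3 → ℤ) => GoodL F z.1 z.2

open Classical in
/-- the set of `DEG` -/
noncomputable def D (H : ℕ) : Finset ((Fin 3 → ℤ) × (Fin 3 → ℤ)) :=
  (box H ×ˢ box H).filter fun q : (Fin 3 → ℤ) × (Fin 3 → ℤ) => res q.1 q.2 = 0 ∨ disc q.1 = 0 ∨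
    disc q.2 = 0 ∨ q.1 0 = 0 ∨ q.2 0 = 0

open Classical in
/-- the set of `SQFF` -/
noncomputable def Sq (F : ℤ[X]) (H : ℕ) : Finset ((Fin 3 → ℤ) × (Fin 3 → ℤ)) :=
  (box H ×ˢ box H).filter fun q : (Fin 3 → ℤ) × (Fin 3 → ℤ) =>
    (res q.1 q.2 ≠ 0 ∧ disc q.1 ≠ 0 ∧ disc q.2 ≠ 0 ∧ q.1 0 ≠ 0 ∧ q.2 0 ≠ 0) ∧
    ¬ Squarefree ((facF F q.1 q.2 0 * facF F q.1 q.2 1).map (Int.castRingHom ℚ))

open Classical in
/-- the set of `LARGE` -/
noncomputable def L (Q H : ℕ) : Finset ((Fin 3 → ℤ) × (Fin 3 → ℤ)) :=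
  (box H ×ˢ box H).filter fun q : (Fin 3 → ℤ) × (Fin 3 → ℤ) => ∃ p : ℕ, p.Prime ∧ H ≤ Q * p ∧ 3 ≤ p ∧
    Red p q.1 q.2

open Classical in
/-- the set of `BIG` -/
noncomputable def Bg (α : ℕ → ℤ) (Q H : ℕ) : Finset ((Fin 3 → ℤ) × (Fin 3 → ℤ)) :=
  (box H ×ˢ box H).filter fun q : (Fin 3 → ℤ) × (Fin 3 → ℤ) => q.1 0 ≠ 0 ∧ q.2 0 ≠ 0 ∧
    ∃ p : ℕ, p.Prime ∧ H ≤ Q * p ∧ (p : ℤ) ∣ q.1 0 * q.2 0 ∧
      (p : ℤ) ∣ vl q.1 (α p) * vl q.2 (α p)

open Classical in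
theorem lower (hC : S_CLS) {F : ℤ[X]} {q P : ℕ} {s : ℤ} (α : ℕ → ℤ) (hs : s = 1 ∨ s = -1)
    (hsF : 0 ≤ s * F.coeff 0) (hP : 23 ≤ P) (hq1 : 1 ≤ q) (h8 : 8 ∣ q)
    (hq : ∀ p : ℕ, p.Prime → (p ∣ q ↔ p ≤ P))
    (hloc : ∀ (p : ℕ) [Fact p.Prime], P < p → ∀ f g : Fin 3 → ℤ, ¬ Bd p (α p) f g →
      SolF F f g ℚ_[p])
    (H N : ℕ) (hN : q * N ≤ H) (hN2 : H ≤ 2 * q * N) :
    (N : ℝ) ^ 6 ≤ (G F H).card + (D H).card + (Sq F H).card + (L (200 * q) H).card +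
      (Bg α (200 * q) H).card + 1 / 2 * (N : ℝ) ^ 6 := by
  have hss : s * s = 1 := by rcases hs with rfl | rfl <;> norm_num
  set S := (cls N ×ˢ cls N).filter fun z : (Fin 3 → ℤ) × (Fin 3 → ℤ) => ∃ p : ℕ, p.Prime ∧ P < p ∧
      100 * p ≤ N ∧ Bd p (α p) (T q s z.1) (T q s z.2) with hS
  have h1 : (((cls N ×ˢ cls N) \ S).image fun z => (T q s z.1, T q s z.2)) ⊆
      G F H ∪ (D H ∪ (Sq F H ∪ (L (200 * q) H ∪ Bg α (200 * q) H))) := by
    intro z hz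
    rw [mem_image] at hz
    obtain ⟨⟨x, y⟩, hxy, rfl⟩ := hz
    rw [mem_sdiff, mem_product] at hxy
    obtain ⟨⟨hx, hy⟩, hns⟩ := hxy
    dsimp only at hx hy
    have hbx := T_mem_box hs hq1 hN hx
    have hby := T_mem_box hs hq1 hN hy
    rw [mem_union, mem_union, mem_union, mem_union]
    by_cases hd : res (T q s x) (T q s y) = 0 ∨ disc (T q s x) = 0 ∨ disc (T q s y) = 0 ∨
        T q s x 0 = 0 ∨ T q s y 0 = 0
    · right; left
      unfold D
      rw [mem_filter, mem_product]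
      exact ⟨⟨hbx, hby⟩, hd⟩
    push Not at hd
    by_cases hsq : Squarefree ((facF F (T q s x) (T q s y) 0 * facF F (T q s x) (T q s y) 1).map
        (Int.castRingHom ℚ))
    swap
    · right; right; left
      unfold Sq
      rw [mem_filter, mem_product]
      exact ⟨⟨hbx, hby⟩, hd, hsq⟩
    by_cases hl : ∃ p : ℕ, p.Prime ∧ H ≤ 200 * q * p ∧ 3 ≤ p ∧ Red p (T q s x) (T q s y)
    · right; right; right; left
      unfold L
      rw [mem_filter, mem_product]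
      exact ⟨⟨hbx, hby⟩, hl⟩
    by_cases hb : ∃ p : ℕ, p.Prime ∧ H ≤ 200 * q * p ∧ (p : ℤ) ∣ T q s x 0 * T q s y 0 ∧
      (p : ℤ) ∣ vl (T q s x) (α p) * vl (T q s y) (α p)
    · right; right; right; right
      unfold Bg
      rw [mem_filter, mem_product]
      exact ⟨⟨hbx, hby⟩, hd.2.2.2.1, hd.2.2.2.2, hb⟩
    left
    unfold G
    rw [mem_filter, mem_product]
    refine ⟨⟨hbx, hby⟩, ⟨hd.2.2.2.1, hd.2.2.2.2, hsq⟩,
      solF_real hsF (fun i => ((mem_cls.1 hx) i).1) (fun i => ((mem_cls.1 hy) i).1), ?_⟩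
    intro p hp
    by_cases h23 : p ≤ P
    · exact solF_small h8 ((hq p hp.out).2 h23) x y
    · push Not at h23
      refine hloc p h23 (T q s x) (T q s y) ?_
      intro hr
      by_cases hpN : 100 * p ≤ N
      · apply hns
        rw [hS, mem_filter, mem_product]
        exact ⟨⟨hx, hy⟩, p, hp.out, h23, hpN, hr⟩
      · have hH : H ≤ 200 * q * p := by
          push Not at hpN
          calc H ≤ 2 * q * N := hN2
            _ ≤ 2 * q * (100 * p) := Nat.mul_le_mul_left _ hpN.le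
            _ = 200 * q * p := by ring
        rcases hr with hr | ⟨hr1, hr2⟩
        · exact hl ⟨p, hp.out, hH, by omega, hr⟩
        · exact hb ⟨p, hp.out, hH, hr1, hr2⟩
  have h2 := Finset.card_le_card h1
  rw [Finset.card_image_of_injective _ (by
    intro z z' h
    simp only [Prod.mk.injEq] at h
    exact Prod.ext (T_inj hss (by omega) h.1) (T_inj hss (by omega) h.2))] at h2
  have h3 : (cls N ×ˢ cls N).card = N ^ 6 := by
    rw [card_product, REDC.card_cls]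
    ring
  have h4 : (cls N ×ˢ cls N).card ≤ ((cls N ×ˢ cls N) \ S).card + S.card := by
    have := Finset.le_card_sdiff S (cls N ×ˢ cls N)
    omega
  have h5 : (G F H ∪ (D H ∪ (Sq F H ∪ (L (200 * q) H ∪ Bg α (200 * q) H)))).card ≤
      (G F H).card + ((D H).card + ((Sq F H).card + ((L (200 * q) H).card +
        (Bg α (200 * q) H).card))) :=
    (Finset.card_union_le _ _).trans (Nat.add_le_add_left ((Finset.card_union_le _ _).trans
      (Nat.add_le_add_left ((Finset.card_union_le _ _).trans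
        (Nat.add_le_add_left (Finset.card_union_le _ _) _)) _)) _)
  have h6 : N ^ 6 ≤ (G F H).card + ((D H).card + ((Sq F H).card + ((L (200 * q) H).card +
        (Bg α (200 * q) H).card))) + S.card := by
    rw [← h3]
    omega
  have h7 : ((N ^ 6 : ℕ) : ℝ) ≤ (((G F H).card + ((D H).card + ((Sq F H).card +
      ((L (200 * q) H).card + (Bg α (200 * q) H).card))) + S.card : ℕ) : ℝ) := by
    exact_mod_cast h6
  push_cast at h7
  have h8 := count_small hC hss α hP (fun p hp h => fun hd => absurd ((hq p hp).1 hd) (by omega)) N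
  rw [← hS] at h8
  linarith

/-- the final statement -/
theorem main (hC : S_CLS) (hB : S_BIG) (hSq : S_SQFF) (hL : S_LOCF) (F : ℤ[X])
    (hF : 1 ≤ F.natDegree) : ∃ (c : ℝ) (H₀ : ℕ), 0 < c ∧ ∀ H : ℕ, H₀ ≤ H →
      c * (H : ℝ) ^ 6 ≤ ((G F H).card : ℝ) := by
  classical
  obtain ⟨P₀, α, hloc⟩ := hL F hF
  obtain ⟨P, hP⟩ : ∃ P, P = max 23 P₀ := ⟨_, rfl⟩
  obtain ⟨q, hq⟩ : ∃ q, q = 8 * P.factorial := ⟨_, rfl⟩
  have hP23 : 23 ≤ P := by rw [hP]; exact le_max_left _ _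
  have hPP : P₀ ≤ P := by rw [hP]; exact le_max_right _ _
  have hq1 : 1 ≤ q := by
    rw [hq]
    have := P.factorial_pos
    omega
  have h8 : 8 ∣ q := ⟨_, hq⟩
  have hqp : ∀ p : ℕ, p.Prime → (p ∣ q ↔ p ≤ P) := by
    intro p hp
    rw [hq]
    constructor
    · intro h
      rcases (Nat.Prime.dvd_mul hp).1 h with h | h
      · have := Nat.le_of_dvd (by norm_num) h
        omega
      · exact (Nat.Prime.dvd_factorial hp).1 h
    · intro h
      exact ((Nat.Prime.dvd_factorial hp).2 h).mul_left _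
  obtain ⟨s, hs, hsF⟩ : ∃ s : ℤ, (s = 1 ∨ s = -1) ∧ 0 ≤ s * F.coeff 0 := by
    rcases le_total 0 (F.coeff 0) with h | h
    · exact ⟨1, Or.inl rfl, by linarith⟩
    · exact ⟨-1, Or.inr rfl, by linarith⟩
  obtain ⟨C₁, hC₁, hD⟩ := DEG.t
  obtain ⟨C₂, hLa⟩ := LARGE.t (200 * q)
  obtain ⟨C₃, hC₃, hSq⟩ := hSq F hF
  obtain ⟨C₄, hC₄, hBg⟩ := hB (200 * q)
  obtain ⟨K, hK⟩ : ∃ K : ℝ, K = 1 / (2 * (q : ℝ)) ^ 6 := ⟨_, rfl⟩
  have hQ0 : (0 : ℝ) < q := by exact_mod_cast hq1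
  have hK0 : 0 < K := by rw [hK]; positivity
  -- the error terms
  have hlim : ∀ᶠ x : ℝ in Filter.atTop, (C₁ + C₃ + C₄ + |C₂| * Real.log x) ≤ K / 4 * x := by
    have h1 : (fun x : ℝ => C₁ + C₃ + C₄ + |C₂| * Real.log x) =o[Filter.atTop] (fun x : ℝ => x) := by
      refine Asymptotics.IsLittleO.add ?_ ?_
      · exact Asymptotics.isLittleO_const_id_atTop _
      · exact Real.isLittleO_log_id_atTop.const_mul_left _
    have h2 := h1.bound (show 0 < K / 4 by positivity)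
    filter_upwards [h2, Filter.eventually_ge_atTop 0] with x hx hx0
    rw [Real.norm_eq_abs, Real.norm_eq_abs, abs_of_nonneg hx0] at hx
    exact (le_abs_self _).trans hx
  obtain ⟨x₀, hx₀⟩ := Filter.eventually_atTop.1 hlim
  refine ⟨K / 4, max (2 * q) (⌈x₀⌉₊ + 3), by positivity, fun H hH => ?_⟩
  have hH1 : 2 * q ≤ H := (le_max_left _ _).trans hH
  have hH2 : ⌈x₀⌉₊ + 3 ≤ H := (le_max_right _ _).trans hH
  have hx : x₀ ≤ H := by
    refine (Nat.le_ceil x₀).trans ?_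
    exact_mod_cast (by omega : ⌈x₀⌉₊ ≤ H)
  have hlog := hx₀ H hx
  set N := H / q with hN
  have hN1 : q * N ≤ H := Nat.mul_div_le H q
  have hN2 : H ≤ 2 * q * N := by
    have h1 : H < q * N + q := by
      have := Nat.lt_div_mul_add (a := H) hq1
      rw [mul_comm] at this
      exact this
    have h2 : 1 ≤ N := (Nat.one_le_div_iff hq1).2 (by omega)
    nlinarith
  have hlow := lower hC α hs hsF hP23 hq1 h8 hqp
    (fun p _ hp f g h => hloc p (hPP.trans hp.le) f g h) H N hN1 hN2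
  have hd := hD H (by omega)
  have hl := hLa H (by omega)
  have hsq := hSq H (by omega)
  have hbg := hBg α H (by omega)
  have hH0 : (0 : ℝ) < H := by
    have : 0 < H := by omega
    exact_mod_cast this
  have hN3 : K * (H : ℝ) ^ 6 ≤ (N : ℝ) ^ 6 := by
    have h1 : (H : ℝ) ≤ 2 * q * N := by exact_mod_cast hN2
    have h2 : (H : ℝ) ^ 6 ≤ (2 * q * N) ^ 6 := pow_le_pow_left₀ hH0.le h1 6
    rw [hK, one_div, inv_mul_le_iff₀ (by positivity)]
    calc (H : ℝ) ^ 6 ≤ (2 * q * N) ^ 6 := h2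
      _ = _ := by ring
  have hGd : ((D H).card : ℝ) ≤ C₁ * (H : ℝ) ^ 5 := by
    unfold D
    exact hd
  have hGl : ((L (200 * q) H).card : ℝ) ≤ C₂ * (H : ℝ) ^ 5 * Real.log H := by
    unfold L
    exact hl
  have hGs : ((Sq F H).card : ℝ) ≤ C₃ * (H : ℝ) ^ 5 := by
    unfold Sq
    exact hsq
  have hGb : ((Bg α (200 * q) H).card : ℝ) ≤ C₄ * (H : ℝ) ^ 5 := by
    unfold Bg
    exact hbg
  have hlog0 : 0 ≤ Real.log H := Real.log_nonneg (by exact_mod_cast (by omega : 1 ≤ H))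
  have hGl2 : C₂ * (H : ℝ) ^ 5 * Real.log H ≤ |C₂| * Real.log H * (H : ℝ) ^ 5 := by
    have h1 : C₂ ≤ |C₂| := le_abs_self _
    have h2 : 0 ≤ (H : ℝ) ^ 5 * Real.log H := by positivity
    nlinarith
  have hfin : (C₁ + C₃ + C₄ + |C₂| * Real.log H) * (H : ℝ) ^ 5 ≤ K / 4 * H * (H : ℝ) ^ 5 :=
    mul_le_mul_of_nonneg_right hlog (by positivity)
  have e : K / 4 * (H : ℝ) ^ 6 = K / 4 * H * (H : ℝ) ^ 5 := by ring
  nlinarith

end Pool.Agent.H14G
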