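import Pool.Agent.H14G.Stm

/-!
# Stub LEMA of project B
-/

set_option autoImplicit false

namespace Pool.Agent.H14G.LEMA

open Polynomial

theorem sqf {k : Type} [Field k] [PerfectField k] (h2 : (2 : k) ≠ 0) {F W h : k[X]} {c : k}
    (hF : derivative F ≠ 0) (hW : W ≠ 0) (heq : W.comp F = C c * h ^ 2) (hs : Squarefree W) :
    (∃ (e : k) (s : k[X]), W = C e * s ^ 2) ∨
    ∃ (e α c' : k) (s h' : k[X]), W = C e * (X - C α) * s ^ 2 ∧ F - C α = C c' * h' ^ 2 := by
  have hFd : F.natDegree ≠ 0 := by
    intro h0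
    rw [natDegree_eq_zero] at h0
    obtain ⟨a, rfl⟩ := h0
    exact hF derivative_C
  have hsep : W.Separable := PerfectField.separable_iff_squarefree.2 hs
  have hWF : W.comp F ≠ 0 := by
    intro h0
    rcases comp_eq_zero_iff.1 h0 with h1 | ⟨-, h1⟩
    · exact hW h1
    · exact hFd (by rw [h1, natDegree_C])
  have hc : c ≠ 0 := by
    rintro rfl
    rw [C_0, zero_mul] at heq
    exact hWF heq
  have hcop : IsCoprime (W.comp F) ((derivative W).comp F) := by
    have h3 : IsCoprime W (derivative W) := hsep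
    exact h3.map (compRingHom F)
  have hh : h ∣ W.comp F := ⟨C c * h, by rw [heq]; ring⟩
  have hcop' : IsCoprime h ((derivative W).comp F) := hcop.of_isCoprime_of_dvd_left hh
  have hdvd : h ∣ derivative F * (derivative W).comp F := by
    rw [← derivative_comp, heq, derivative_C_mul, derivative_pow]
    refine ⟨C c * (C ((2 : ℕ) : k) * h ^ (2 - 1 - 1) * derivative h), ?_⟩
    norm_num
    ring
  have hdF : h ∣ derivative F := hcop'.dvd_of_dvd_mul_right hdvd
  have hle : h.natDegree < F.natDegree :=
    (natDegree_le_of_dvd hdF hF).trans_lt (natDegree_derivative_lt hFd)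
  have hdeg : W.natDegree * F.natDegree = 2 * h.natDegree := by
    rw [← natDegree_comp, heq, natDegree_C_mul hc, natDegree_pow]
  have hW1 : W.natDegree ≤ 1 := by
    by_contra hcon
    have h3 : 2 ≤ W.natDegree := by omega
    have h4 : 2 * F.natDegree ≤ W.natDegree * F.natDegree := Nat.mul_le_mul_right _ h3
    omega
  rcases Nat.le_one_iff_eq_zero_or_eq_one.1 hW1 with h0 | h1
  · left
    rw [natDegree_eq_zero] at h0
    obtain ⟨e, he⟩ := h0
    exact ⟨e, 1, by rw [← he]; ring⟩
  · right
    obtain ⟨a, b, hab⟩ := exists_eq_X_add_C_of_natDegree_le_one hW1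
    have ha : a ≠ 0 := by
      rintro rfl
      rw [hab, C_0, zero_mul, zero_add, natDegree_C] at h1
      omega
    have hca : (C a : k[X]) * C a⁻¹ = 1 := by rw [← C_mul, mul_inv_cancel₀ ha, C_1]
    refine ⟨a, -(b * a⁻¹), a⁻¹ * c, 1, h, ?_, ?_⟩
    · rw [hab, C_neg, C_mul]
      linear_combination (-(C b)) * hca
    · rw [hab] at heq
      rw [add_comp, mul_comp, C_comp, X_comp, C_comp] at heq
      rw [C_neg, C_mul, C_mul]
      linear_combination (C a⁻¹) * heq - F * hca

theorem t : Pool.Agent.H14G.S_LEMA := by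
  intro k _ _ h2 F W h c hF hW heq
  have hFd : F.natDegree ≠ 0 := by
    intro h0
    rw [natDegree_eq_zero] at h0
    obtain ⟨a, rfl⟩ := h0
    exact hF derivative_C
  obtain ⟨n, hn⟩ : ∃ n, n = W.natDegree := ⟨_, rfl⟩
  induction n using Nat.strong_induction_on generalizing W h with
  | _ n ih =>
    by_cases hs : Squarefree W
    · exact sqf h2 hF hW heq hs
    · unfold Squarefree at hs
      push Not at hs
      obtain ⟨a, ⟨W', hW'⟩, ha⟩ := hs
      have ha0 : a ≠ 0 := by
        rintro rfl
        exact hW (by rw [hW']; ring)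
      have hW'0 : W' ≠ 0 := by
        rintro rfl
        exact hW (by rw [hW']; ring)
      have had : 1 ≤ a.natDegree := by
        by_contra hcon
        have h0 : a.natDegree = 0 := by omega
        rw [natDegree_eq_zero] at h0
        obtain ⟨b, rfl⟩ := h0
        apply ha
        rw [isUnit_C, isUnit_iff_ne_zero]
        rintro rfl
        exact ha0 C_0
      have hlt : W'.natDegree < n := by
        rw [hn, hW', natDegree_mul (mul_ne_zero ha0 ha0) hW'0, natDegree_mul ha0 ha0]
        omega
      have haF : a.comp F ≠ 0 := by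
        intro h0
        rcases comp_eq_zero_iff.1 h0 with h1 | ⟨-, h1⟩
        · exact ha0 h1
        · exact hFd (by rw [h1, natDegree_C])
      have hWF : W.comp F ≠ 0 := by
        intro h0
        rcases comp_eq_zero_iff.1 h0 with h1 | ⟨-, h1⟩
        · exact hW h1
        · exact hFd (by rw [h1, natDegree_C])
      have hc : c ≠ 0 := by
        rintro rfl
        rw [C_0, zero_mul] at heq
        exact hWF heq
      have hcc : (C c : k[X]) * C c⁻¹ = 1 := by rw [← C_mul, mul_inv_cancel₀ hc, C_1]
      have e1 : (a.comp F) ^ 2 * W'.comp F = C c * h ^ 2 := by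
        rw [← heq, hW', mul_comp, mul_comp]
        ring
      have hdvd : (a.comp F) ^ 2 ∣ h ^ 2 := by
        refine ⟨C c⁻¹ * W'.comp F, ?_⟩
        linear_combination (-(C c⁻¹)) * e1 - h ^ 2 * hcc
      obtain ⟨h1, rfl⟩ := (IsIntegrallyClosed.pow_dvd_pow_iff (R := k[X]) two_ne_zero).1 hdvd
      have e2 : W'.comp F = C c * h1 ^ 2 := by
        apply mul_left_cancel₀ (pow_ne_zero 2 haF)
        rw [e1]
        ring
      rcases ih W'.natDegree hlt W' h1 hW'0 e2 rfl with ⟨e, s, h3⟩ | ⟨e, α, c', s, h', h3, h4⟩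
      · left
        exact ⟨e, a * s, by rw [hW', h3]; ring⟩
      · right
        exact ⟨e, α, c', a * s, h', by rw [hW', h3]; ring, h4⟩

end Pool.Agent.H14G.LEMA
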