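import Pool.Agent.H14G.Stm
import Pool.Agent.H14F.LOCS
import Pool.Agent.H14Q.Loc
import Pool.Agent.H341R2.WeilSharp

/-!
# Stub LOCF of project HB: local solubility of `y² = f(F) g(F)` at the large primes

By helper59, after `H14Q2/Els.lean` and `H14F/LOCS.lean`.
-/

set_option autoImplicit false

namespace Pool.Agent.H14G.LOCF

open Polynomial Pool.Agent.H14F Pool.Agent.H14G
open Pool.Agent.H14F.LOCS (pol coeff2 coeff1 coeff0 natDegree_pol_le red_of_sq)

section field

variable {K : Type} [Field K]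

/-- `G - β = c h²` for at most one `β` -/
theorem uniq {G : K[X]} (hG : 1 ≤ G.natDegree) (hG' : derivative G ≠ 0) {β β' c c' : K}
    {h h' : K[X]} (e1 : G - C β = C c * h ^ 2) (e2 : G - C β' = C c' * h' ^ 2) : β = β' := by
  by_contra hne
  have n1 : (G - C β).natDegree = G.natDegree := natDegree_sub_C
  have n2 : (G - C β').natDegree = G.natDegree := natDegree_sub_C
  have hc : c ≠ 0 := by
    rintro rfl
    rw [e1, C_0, zero_mul, natDegree_zero] at n1
    omega
  have hc' : c' ≠ 0 := by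
    rintro rfl
    rw [e2, C_0, zero_mul, natDegree_zero] at n2
    omega
  have hh : 2 * h.natDegree = G.natDegree := by
    rw [← n1, e1, natDegree_C_mul hc, natDegree_pow]
  have hh' : 2 * h'.natDegree = G.natDegree := by
    rw [← n2, e2, natDegree_C_mul hc', natDegree_pow]
  have h0 : h ≠ 0 := by
    rintro rfl
    rw [natDegree_zero] at hh
    omega
  have h0' : h' ≠ 0 := by
    rintro rfl
    rw [natDegree_zero] at hh'
    omega
  have hcop : IsCoprime h h' := by
    have hd : β' - β ≠ 0 := fun h => hne (sub_eq_zero.1 h).symm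
    refine ⟨C ((β' - β)⁻¹ * c) * h, -(C ((β' - β)⁻¹ * c') * h'), ?_⟩
    have e3 : C c * h ^ 2 - C c' * h' ^ 2 = C (β' - β) := by
      rw [← e1, ← e2, C_sub]
      ring
    have e4 : (C (β' - β)⁻¹ : K[X]) * C (β' - β) = 1 := by
      rw [← C_mul, inv_mul_cancel₀ hd, C_1]
    rw [C_mul, C_mul]
    linear_combination (C (β' - β)⁻¹) * e3 + e4
  have d1 : h ∣ derivative G := by
    have : derivative G = derivative (G - C β) := by rw [derivative_sub, derivative_C, sub_zero]
    rw [this, e1, derivative_C_mul, derivative_pow]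
    exact ⟨C c * (C (2 : K) * derivative h), by norm_num; ring⟩
  have d2 : h' ∣ derivative G := by
    have : derivative G = derivative (G - C β') := by rw [derivative_sub, derivative_C, sub_zero]
    rw [this, e2, derivative_C_mul, derivative_pow]
    exact ⟨C c' * (C (2 : K) * derivative h'), by norm_num; ring⟩
  have d3 := natDegree_le_of_dvd (hcop.mul_dvd d1 d2) hG'
  rw [natDegree_mul h0 h0'] at d3
  have d4 := natDegree_derivative_lt (p := G) (by omega)
  omega

/-- `W(G)` is not a constant times a square -/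
theorem not_sq (hL : S_LEMA) [PerfectField K] (h2 : (2 : K) ≠ 0) {G : K[X]}
    (hG' : derivative G ≠ 0) {a b c a' b' c' e : K} {h : K[X]}
    (heq : (pol a b c * pol a' b' c').comp G = C e * h ^ 2) :
    ((a * b' - b * a' = 0 ∧ a * c' - c * a' = 0 ∧ b * c' - c * b' = 0) ∨
      (b ^ 2 - 4 * a * c = 0 ∧ b' ^ 2 - 4 * a' * c' = 0)) ∨
    ∃ (α c₁ : K) (h₁ : K[X]), G - C α = C c₁ * h₁ ^ 2 ∧ a * a' = 0 ∧
      (a * α ^ 2 + b * α + c) * (a' * α ^ 2 + b' * α + c') = 0 := by
  by_cases hF : pol a b c = 0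
  · left; left
    have ha : a = 0 := by rw [← coeff2 a b c, hF, coeff_zero]
    have hb : b = 0 := by rw [← coeff1 a b c, hF, coeff_zero]
    have hc : c = 0 := by rw [← coeff0 a b c, hF, coeff_zero]
    rw [ha, hb, hc]
    simp
  by_cases hF' : pol a' b' c' = 0
  · left; left
    have ha : a' = 0 := by rw [← coeff2 a' b' c', hF', coeff_zero]
    have hb : b' = 0 := by rw [← coeff1 a' b' c', hF', coeff_zero]
    have hc : c' = 0 := by rw [← coeff0 a' b' c', hF', coeff_zero]
    rw [ha, hb, hc]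
    simp
  have hW := mul_ne_zero hF hF'
  rcases hL K h2 G _ h e hG' hW heq with ⟨e', s, hs⟩ | ⟨e', α, c₁, s, h₁, hs, hα⟩
  · exact Or.inl (red_of_sq hs)
  · right
    refine ⟨α, c₁, h₁, hα, ?_, ?_⟩
    · by_contra haa
      have he' : e' ≠ 0 := by
        rintro rfl
        rw [C_0, zero_mul, zero_mul] at hs
        exact hW hs
      have hs0 : s ≠ 0 := by
        rintro rfl
        rw [zero_pow two_ne_zero, mul_zero] at hs
        exact hW hs
      have n1 : (pol a b c).natDegree = 2 :=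
        natDegree_quadratic (left_ne_zero_of_mul haa)
      have n2 : (pol a' b' c').natDegree = 2 :=
        natDegree_quadratic (right_ne_zero_of_mul haa)
      have n3 : (pol a b c * pol a' b' c').natDegree = 4 := by
        rw [natDegree_mul hF hF', n1, n2]
      rw [hs, mul_assoc, natDegree_C_mul he', natDegree_mul (X_sub_C_ne_zero α) (pow_ne_zero 2 hs0),
        natDegree_X_sub_C, natDegree_pow] at n3
      omega
    · have h3 := congrArg (Polynomial.eval α) hs
      simp only [pol, eval_mul, eval_add, eval_C, eval_pow, eval_X, eval_sub, sub_self, mul_zero,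
        zero_mul] at h3
      exact h3

end field

section padic

variable {p : ℕ} [hp : Fact p.Prime]

/-- a nonzero square value modulo `p` -/
theorem exists_value {d : ℕ} {f : (ZMod p)[X]} (hp2 : p ≠ 2) (hd1 : 1 ≤ d)
    (hfd : f.natDegree ≤ 4 * d) (hpd : 64 * d ^ 2 ≤ p)
    (hns : ∀ (c : ZMod p) (h : (ZMod p)[X]), f ≠ C c * h ^ 2) :
    ∃ x : ZMod p, f.eval x ≠ 0 ∧ IsSquare (f.eval x) := by
  classical
  have hcard : Fintype.card (ZMod p) = p := ZMod.card p
  have hchar : ringChar (ZMod p) ≠ 2 := by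
    rw [ZMod.ringChar_zmod_n]
    exact hp2
  have hfd1 : 1 ≤ f.natDegree := by
    by_contra hcon
    have h0 : f.natDegree = 0 := by omega
    rw [natDegree_eq_zero] at h0
    obtain ⟨c, hc⟩ := h0
    exact hns c 1 (by rw [← hc]; ring)
  have hf0 : f ≠ 0 := by
    intro h0
    exact hns 0 1 (by rw [h0, C_0, zero_mul])
  by_contra hcon
  push Not at hcon
  have hW := Pool.Agent.H341R2.Sharp.weil_sharp hchar f hfd1 hns
  rw [hcard] at hW
  have hle : ∑ x : ZMod p, (quadraticChar (ZMod p) (f.eval x) : ℝ) ≤ -(p : ℝ) + 4 * d := by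
    have h1 : ∀ x : ZMod p, (quadraticChar (ZMod p) (f.eval x) : ℝ) ≤
        -1 + (if x ∈ f.roots.toFinset then 1 else 0) := by
      intro x
      by_cases hx : f.eval x = 0
      · rw [if_pos (by rw [Multiset.mem_toFinset, mem_roots hf0]; exact hx), hx]
        simp
      · rw [if_neg (by rw [Multiset.mem_toFinset, mem_roots hf0]; exact hx)]
        have h3 := hcon x hx
        rw [quadraticChar_neg_one_iff_not_isSquare.2 h3]
        norm_num
    have h2 := Finset.sum_le_sum fun x (_ : x ∈ (Finset.univ : Finset (ZMod p))) => h1 x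
    rw [Finset.sum_add_distrib, Finset.sum_const, Finset.card_univ, hcard, ← Finset.sum_filter] at h2
    simp only [nsmul_eq_mul, mul_neg, mul_one, Finset.filter_univ_mem, Finset.sum_const] at h2
    have h3 : (f.roots.toFinset.card : ℝ) ≤ 4 * d := by
      have h4 : f.roots.toFinset.card ≤ 4 * d :=
        (Multiset.toFinset_card_le _).trans ((card_roots' f).trans hfd)
      exact_mod_cast h4
    linarith
  have habs := (abs_le.1 hW).1
  have hd1r : (1 : ℝ) ≤ d := by exact_mod_cast hd1
  have hpr : (64 : ℝ) * d ^ 2 ≤ p := by exact_mod_cast hpd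
  have hs0 : 0 ≤ Real.sqrt p := Real.sqrt_nonneg _
  have hss : Real.sqrt p * Real.sqrt p = p := Real.mul_self_sqrt (Nat.cast_nonneg _)
  have hs8 : 8 * (d : ℝ) ≤ Real.sqrt p := by
    refine Real.le_sqrt_of_sq_le ?_
    nlinarith
  have hfr : (f.natDegree : ℝ) ≤ 4 * d := by exact_mod_cast hfd
  have h5 : ((f.natDegree : ℝ) - 1) * Real.sqrt p ≤ (4 * d - 1) * Real.sqrt p :=
    mul_le_mul_of_nonneg_right (by linarith) hs0
  nlinarith

/-- the prime `p`, for a number `u` with the required property -/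
theorem solF_of (hL : S_LEMA) {F : ℤ[X]} (hF : 1 ≤ F.natDegree) (hp2 : p ≠ 2)
    (hlc : ¬ (p : ℤ) ∣ F.leadingCoeff) (hpd : 64 * F.natDegree ^ 2 ≤ p) {u : ℤ}
    (hu : ∀ (β c : ZMod p) (h : (ZMod p)[X]),
      F.map (Int.castRingHom (ZMod p)) - C β = C c * h ^ 2 → β = (u : ZMod p))
    (hd : derivative (F.map (Int.castRingHom (ZMod p))) ≠ 0)
    {f g : Fin 3 → ℤ} (hb : ¬ Bd p u f g) : SolF F f g ℚ_[p] := by
  have key : ∀ z : ℤ, ((z : ℤ) : ZMod p) = 0 ↔ (p : ℤ) ∣ z := fun z =>
    ZMod.intCast_zmod_eq_zero_iff_dvd z p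
  have hchar : ringChar (ZMod p) ≠ 2 := by
    rw [ZMod.ringChar_zmod_n]
    exact hp2
  have h2 : (2 : ZMod p) ≠ 0 := Ring.two_ne_zero hchar
  obtain ⟨G, hG⟩ : ∃ G, G = F.map (Int.castRingHom (ZMod p)) := ⟨_, rfl⟩
  rw [← hG] at hu hd
  have hlc' : (Int.castRingHom (ZMod p)) F.leadingCoeff ≠ 0 := by
    rw [eq_intCast, Ne, ZMod.intCast_zmod_eq_zero_iff_dvd]
    exact hlc
  have hnd : G.natDegree = F.natDegree := by
    rw [hG]
    exact natDegree_map_of_leadingCoeff_ne_zero _ hlc'
  obtain ⟨x, hx0, hx⟩ := exists_value (p := p) (d := F.natDegree)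
    (f := (pol (f 0 : ZMod p) (f 1) (f 2) * pol (g 0 : ZMod p) (g 1) (g 2)).comp G) hp2 hF (by
      rw [natDegree_comp, hnd]
      refine Nat.mul_le_mul_right _ (natDegree_mul_le.trans ?_)
      have := natDegree_pol_le (f 0 : ZMod p) (f 1) (f 2)
      have := natDegree_pol_le (g 0 : ZMod p) (g 1) (g 2)
      omega) hpd (by
      intro e h heq
      apply hb
      unfold Bd
      rcases not_sq hL h2 hd heq with h3 | ⟨α, c₁, h₁, hα, haa, hv⟩
      · left
        unfold Red disc
        rcases h3 with ⟨h1, h2, h3⟩ | ⟨h1, h2⟩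
        · left
          refine ⟨(key _).1 ?_, (key _).1 ?_, (key _).1 ?_⟩
          · push_cast
            exact h1
          · push_cast
            exact h2
          · push_cast
            exact h3
        · right
          refine ⟨(key _).1 ?_, (key _).1 ?_⟩
          · push_cast
            exact h1
          · push_cast
            exact h2
      · right
        have h4 := hu α c₁ h₁ hα
        subst h4
        refine ⟨(key _).1 ?_, (key _).1 ?_⟩
        · push_cast
          exact haa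
        · unfold vl
          push_cast
          exact hv)
  obtain ⟨z, rfl⟩ := ZMod.intCast_surjective x
  obtain ⟨w, hw⟩ : ∃ w : ℤ, w = F.eval z := ⟨_, rfl⟩
  obtain ⟨v, hv⟩ : ∃ v : ℤ, v = (f 0 * w ^ 2 + f 1 * w + f 2) * (g 0 * w ^ 2 + g 1 * w + g 2) :=
    ⟨_, rfl⟩
  have hev : G.eval ((z : ℤ) : ZMod p) = ((w : ℤ) : ZMod p) := by
    rw [hw, hG, eval_map, ← eq_intCast (Int.castRingHom (ZMod p)) z, eval₂_at_apply, eq_intCast]
  have hvm : ((v : ℤ) : ZMod p) = ((pol (f 0 : ZMod p) (f 1) (f 2) *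
      pol (g 0 : ZMod p) (g 1) (g 2)).comp G).eval ((z : ℤ) : ZMod p) := by
    rw [eval_comp, hev, hv]
    simp [pol]
  rw [← hvm] at hx0 hx
  have hpv : ¬ (p : ℤ) ∣ v := by
    rw [← key]
    exact hx0
  obtain ⟨y, hy⟩ := Pool.Agent.H14Q.isSquare_odd hp2 hpv hx
  refine ⟨(z : ℚ_[p]), y, ?_⟩
  have hev2 : F.eval₂ (Int.castRingHom ℚ_[p]) (z : ℚ_[p]) = ((w : ℤ) : ℚ_[p]) := by
    have := eval₂_at_apply (p := F) (Int.castRingHom ℚ_[p]) z
    rw [eq_intCast, eq_intCast, ← hw] at this
    exact this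
  rw [hev2, pow_two, ← hy, hv]
  unfold ev
  push_cast
  ring

end padic

/-- **LOCF.** -/
theorem t (hL : S_LEMA) : S_LOCF := by
  classical
  intro F hF
  let Q : (p : ℕ) → ℤ → Prop := fun p β => ∃ (c : ZMod p) (h : (ZMod p)[X]),
    F.map (Int.castRingHom (ZMod p)) - C ((β : ℤ) : ZMod p) = C c * h ^ 2
  refine ⟨64 * F.natDegree ^ 2 + F.leadingCoeff.natAbs + 23,
    fun p => if h : ∃ β : ℤ, Q p β then h.choose else 0, ?_⟩
  intro p hpp hP f g hb
  have hl0 : F.leadingCoeff ≠ 0 := by
    rw [leadingCoeff_ne_zero]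
    rintro rfl
    simp at hF
  have hlc : ¬ (p : ℤ) ∣ F.leadingCoeff := by
    intro h
    have h1 := Nat.le_of_dvd (Int.natAbs_pos.2 hl0) (Int.natCast_dvd.1 h)
    omega
  have hdp : F.natDegree < p := by
    have : F.natDegree ≤ 64 * F.natDegree ^ 2 := by nlinarith
    omega
  have hd : derivative (F.map (Int.castRingHom (ZMod p))) ≠ 0 := by
    intro h0
    have h1 := congrArg (fun q => q.coeff (F.natDegree - 1)) h0
    simp only [coeff_derivative, coeff_zero, coeff_map] at h1
    have e1 : F.natDegree - 1 + 1 = F.natDegree := by omega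
    rw [e1] at h1
    have h2 : ((F.natDegree - 1 : ℕ) : ZMod p) + 1 = ((F.natDegree : ℕ) : ZMod p) := by
      rw [← Nat.cast_succ, Nat.succ_eq_add_one, e1]
    rw [h2] at h1
    rcases mul_eq_zero.1 h1 with h3 | h3
    · rw [eq_intCast, ZMod.intCast_zmod_eq_zero_iff_dvd] at h3
      exact hlc h3
    · rw [ZMod.natCast_eq_zero_iff] at h3
      have := Nat.le_of_dvd (by omega) h3
      omega
  have hnd : (F.map (Int.castRingHom (ZMod p))).natDegree = F.natDegree := by
    refine natDegree_map_of_leadingCoeff_ne_zero _ ?_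
    rw [eq_intCast, Ne, ZMod.intCast_zmod_eq_zero_iff_dvd]
    exact hlc
  refine solF_of hL hF (by omega) hlc (by omega) ?_ hd hb
  intro β c h hβ
  obtain ⟨z, rfl⟩ := ZMod.intCast_surjective β
  have hex : ∃ β : ℤ, Q p β := ⟨z, c, h, hβ⟩
  simp only [dif_pos hex]
  obtain ⟨c', h', hβ'⟩ := hex.choose_spec
  exact uniq (by rw [hnd]; exact hF) hd hβ hβ'

end Pool.Agent.H14G.LOCF
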