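import Pool.Agent.H14F.Defs

/-!
# Points over extensions of odd degree on `y² = f(x) g(x)`
-/

set_option autoImplicit false

namespace Pool.Agent.H14G

open Polynomial
open scoped IntermediateField

/-- the descent: a point over an extension of odd degree gives a rational point or the leading coefficient is
a square -/
theorem descent {k : Type} [Field k] {G : k[X]} (hG : G.natDegree ≤ 4) (hs : ¬ IsSquare (G.coeff 4)) :
    ∀ n : ℕ, ∀ m h : k[X], m.natDegree ≤ n → Irreducible m → Odd m.natDegree → m ∣ h ^ 2 - G →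
      ∃ x y : k, y ^ 2 = G.eval x := by
  have h4 : G.coeff 4 ≠ 0 := by
    intro h0
    rw [h0] at hs
    exact hs (IsSquare.zero)
  have hdeg : G.natDegree = 4 := le_antisymm hG (le_natDegree_of_ne_zero h4)
  have hlead : G.leadingCoeff = G.coeff 4 := by rw [leadingCoeff, hdeg]
  intro n
  induction n using Nat.strong_induction_on with
  | _ n ih =>
    intro m h hmn hm hodd hdvd
    by_cases h1 : m.natDegree = 1
    · -- a root
      obtain ⟨x, hx⟩ := exists_root_of_degree_eq_one (degree_eq_iff_natDegree_eq_of_pos one_pos |>.2 h1)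
      refine ⟨x, h.eval x, ?_⟩
      obtain ⟨q, hq⟩ := hdvd
      have h2 := congrArg (eval x) hq
      rw [eval_mul, hx.eq_zero, zero_mul, eval_sub, eval_pow, sub_eq_zero] at h2
      exact h2
    · have hm3 : 3 ≤ m.natDegree := by
        obtain ⟨r, hr⟩ := hodd
        omega
      have hm0 : m ≠ 0 := hm.ne_zero
      -- reduce `h`
      obtain ⟨e, he⟩ : ∃ e, e = h % m := ⟨_, rfl⟩
      have hed : e.natDegree < m.natDegree := by
        rw [he]
        exact natDegree_mod_lt h (by omega)
      have hdvd' : m ∣ e ^ 2 - G := by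
        have h2 : e ^ 2 - G = (h ^ 2 - G) - m * (h / m) * (h + e) := by
          have h3 : e = h - m * (h / m) := by
            rw [he]
            linear_combination EuclideanDomain.div_add_mod h m
          have h4 : h - e = m * (h / m) := by rw [h3]; ring
          linear_combination (-(h + e)) * h4
        rw [h2]
        exact dvd_sub hdvd (Dvd.dvd.mul_right (dvd_mul_right _ _) _)
      obtain ⟨m', hm'⟩ := hdvd'
      by_cases hz : e ^ 2 - G = 0
      · refine ⟨0, e.eval 0, ?_⟩
        have h2 := congrArg (eval 0) hz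
        rw [eval_sub, eval_pow, eval_zero, sub_eq_zero] at h2
        exact h2
      have hm'0 : m' ≠ 0 := by
        rintro rfl
        rw [mul_zero] at hm'
        exact hz hm'
      -- the degree of `e² - G` is even
      have hN : Even (e ^ 2 - G).natDegree ∧ (e ^ 2 - G).natDegree ≤ max (2 * e.natDegree) 4 := by
        have hpow : (e ^ 2).natDegree = 2 * e.natDegree := natDegree_pow e 2
        rcases lt_trichotomy (2 * e.natDegree) 4 with hlt | heq | hgt
        · have h2 : (e ^ 2 - G).natDegree = G.natDegree := by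
            apply natDegree_sub_eq_right_of_natDegree_lt
            rw [hpow, hdeg]
            exact hlt
          rw [h2, hdeg]
          exact ⟨⟨2, rfl⟩, le_max_right _ _⟩
        · have h2 : (e ^ 2 - G).natDegree ≤ 4 :=
            (natDegree_sub_le _ _).trans (by rw [hpow, hdeg, heq]; simp)
          have h3 : (e ^ 2 - G).coeff 4 ≠ 0 := by
            intro h0
            rw [coeff_sub, sub_eq_zero] at h0
            apply hs
            rw [← h0]
            have he2 : e.natDegree = 2 := by omega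
            have h5 : (e ^ 2).coeff 4 = e.coeff 2 * e.coeff 2 := by
              have h6 : (e ^ 2).coeff (2 * e.natDegree) = e.leadingCoeff ^ 2 := by
                have h7 := leadingCoeff_pow e 2
                rw [← h7, leadingCoeff, hpow]
              rw [he2] at h6
              rw [show (4 : ℕ) = 2 * 2 from rfl, h6, leadingCoeff, he2]
              ring
            rw [h5]
            exact ⟨_, rfl⟩
          have h6 : (e ^ 2 - G).natDegree = 4 := le_antisymm h2 (le_natDegree_of_ne_zero h3)
          rw [h6]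
          exact ⟨⟨2, rfl⟩, le_max_right _ _⟩
        · have h2 : (e ^ 2 - G).natDegree = (e ^ 2).natDegree := by
            apply natDegree_sub_eq_left_of_natDegree_lt
            rw [hpow, hdeg]
            exact hgt
          rw [h2, hpow]
          exact ⟨even_two_mul _, le_max_left _ _⟩
      have hsum : (e ^ 2 - G).natDegree = m.natDegree + m'.natDegree := by
        rw [hm', natDegree_mul hm0 hm'0]
      have hm'odd : Odd m'.natDegree := by
        have h2 := hN.1
        rw [hsum] at h2
        exact (Nat.even_add'.1 h2).1 hodd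
      have hm'lt : m'.natDegree < m.natDegree := by
        have h2 := hN.2
        rcases le_max_iff.1 h2 with h3 | h3 <;> omega
      -- an irreducible factor of odd degree
      have hfac : ∃ m₁ : k[X], Irreducible m₁ ∧ Odd m₁.natDegree ∧ m₁ ∣ m' := by
        by_contra hcon
        push Not at hcon
        have key : ∀ q : k[X], q ≠ 0 → q ∣ m' → Even q.natDegree := by
          intro q
          induction q using UniqueFactorizationMonoid.induction_on_prime with
          | h₁ => intro h; exact absurd rfl h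
          | h₂ u hu => intro _ _; rw [natDegree_eq_zero_of_isUnit hu]; exact Even.zero
          | h₃ a p ha hp iha =>
            intro hpa hd
            have hpd : p ∣ m' := (dvd_mul_right p a).trans hd
            have had : a ∣ m' := (dvd_mul_left a p).trans hd
            rw [natDegree_mul hp.ne_zero ha]
            have h2 : Even p.natDegree := by
              by_contra hno
              exact hcon p hp.irreducible (Nat.not_even_iff_odd.1 hno) hpd
            exact h2.add (iha ha had)
        exact (Nat.not_even_iff_odd.2 hm'odd) (key m' hm'0 dvd_rfl)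
      obtain ⟨m₁, hi, ho, hd⟩ := hfac
      refine ih m₁.natDegree ?_ m₁ e le_rfl hi ho (hd.trans ⟨m, by rw [hm', mul_comm]⟩)
      exact (lt_of_le_of_lt (natDegree_le_of_dvd hd hm'0) hm'lt).trans_le hmn

/-- an element of an extension of odd degree whose square is in the smaller field -/
theorem mem_of_sq {L K : Type} [Field L] [Field K] [Algebra L K] [FiniteDimensional L K]
    (ho : Odd (Module.finrank L K)) {y : K} {z : L} (h : y ^ 2 = algebraMap L K z) :
    ∃ w : L, y = algebraMap L K w := by
  have hint : IsIntegral L y := IsIntegral.of_finite L y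
  have h1 : (minpoly L y).natDegree ≤ 2 := by
    have h2 : minpoly L y ∣ X ^ 2 - C z := minpoly.dvd L y (by simp [h])
    refine (natDegree_le_of_dvd h2 ?_).trans ?_
    · exact (monic_X_pow_sub_C z two_ne_zero).ne_zero
    · rw [natDegree_X_pow_sub_C]
  have h2 : (minpoly L y).natDegree ∣ Module.finrank L K := minpoly.degree_dvd hint
  have h3 : (minpoly L y).natDegree ≠ 2 := by
    intro h4
    rw [h4] at h2
    exact (Nat.not_even_iff_odd.2 ho) (even_iff_two_dvd.2 h2)
  have h4 : 0 < (minpoly L y).natDegree := minpoly.natDegree_pos hint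
  have h5 : (minpoly L y).natDegree = 1 := by omega
  have h6 := (minpoly.natDegree_eq_one_iff (A := L) (x := y)).1 h5
  obtain ⟨w, hw⟩ := h6
  exact ⟨w, hw.symm⟩

/-- the product of the forms at `(x, 1)` as a polynomial -/
noncomputable def quart (f g : Fin 3 → ℤ) : ℚ[X] :=
  (C (f 0 : ℚ) * X ^ 2 + C (f 1 : ℚ) * X + C (f 2 : ℚ)) *
    (C (g 0 : ℚ) * X ^ 2 + C (g 1 : ℚ) * X + C (g 2 : ℚ))

theorem quart_deg (f g : Fin 3 → ℤ) : (quart f g).natDegree ≤ 4 := by
  unfold quart
  refine natDegree_mul_le.trans ?_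
  have h : ∀ a : Fin 3 → ℤ,
      (C (a 0 : ℚ) * X ^ 2 + C (a 1 : ℚ) * X + C (a 2 : ℚ)).natDegree ≤ 2 := by
    intro a
    compute_degree
  have h1 := h f
  have h2 := h g
  omega

theorem quart_coeff (f g : Fin 3 → ℤ) : (quart f g).coeff 4 = (f 0 : ℚ) * (g 0 : ℚ) := by
  unfold quart
  have h : ∀ a : Fin 3 → ℤ,
      (C (a 0 : ℚ) * X ^ 2 + C (a 1 : ℚ) * X + C (a 2 : ℚ)).natDegree ≤ 2 := by
    intro a
    compute_degree
  have hc : ∀ a : Fin 3 → ℤ,
      (C (a 0 : ℚ) * X ^ 2 + C (a 1 : ℚ) * X + C (a 2 : ℚ)).coeff 2 = (a 0 : ℚ) := by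
    intro a
    rw [coeff_add, coeff_add, coeff_C_mul, coeff_C_mul, coeff_X_pow, coeff_X, coeff_C]
    norm_num
  rw [show (4 : ℕ) = 2 + 2 from rfl, coeff_mul_add_eq_of_natDegree_le (h f) (h g), hc, hc]

theorem quart_aeval {K : Type} [Field K] [Algebra ℚ K] (f g : Fin 3 → ℤ) (x : K) :
    aeval x (quart f g) = Pool.Agent.H14F.ev f x 1 * Pool.Agent.H14F.ev g x 1 := by
  unfold quart Pool.Agent.H14F.ev
  simp only [map_mul, map_add, map_pow, aeval_X, map_intCast]
  ring

/-- the curve `y² = f(x) g(x)` has no points over an extension of odd degree of `ℚ`, unless it has a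
rational point -/
theorem sol_of_odd {f g : Fin 3 → ℤ} (K : Type) [Field K] [NumberField K]
    (ho : Odd (Module.finrank ℚ K)) (h : Pool.Agent.H14F.Sol f g K) : Pool.Agent.H14F.Sol f g ℚ := by
  obtain ⟨x, w, y, hxw, hy⟩ := h
  by_cases hsq : IsSquare ((f 0 : ℚ) * (g 0 : ℚ))
  · obtain ⟨r, hr⟩ := hsq
    refine ⟨1, 0, r, Or.inl one_ne_zero, ?_⟩
    unfold Pool.Agent.H14F.ev
    linear_combination -hr
  by_cases hw : w = 0
  · exfalso
    have hx : x ≠ 0 := by
      rcases hxw with h | h
      · exact h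
      · exact absurd hw h
    have h1 : (y / x ^ 2) ^ 2 = algebraMap ℚ K ((f 0 : ℚ) * (g 0 : ℚ)) := by
      rw [div_pow, hy, hw]
      unfold Pool.Agent.H14F.ev
      simp only [map_mul, map_intCast]
      field_simp
      try ring
    obtain ⟨r, hr⟩ := mem_of_sq ho h1
    rw [hr, ← map_pow] at h1
    have h2 := (algebraMap ℚ K).injective h1
    exact hsq ⟨r, by rw [← h2]; ring⟩
  -- an affine point
  obtain ⟨X₁, hX₁⟩ : ∃ X₁ : K, X₁ = x / w := ⟨_, rfl⟩
  obtain ⟨Y₁, hY₁⟩ : ∃ Y₁ : K, Y₁ = y / w ^ 2 := ⟨_, rfl⟩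
  have hXY : Y₁ ^ 2 = aeval X₁ (quart f g) := by
    rw [quart_aeval, hX₁, hY₁, div_pow, hy]
    unfold Pool.Agent.H14F.ev
    field_simp
  have hint : IsIntegral ℚ X₁ := IsIntegral.of_finite ℚ X₁
  have hmul : Module.finrank ℚ ℚ⟮X₁⟯ * Module.finrank ℚ⟮X₁⟯ K = Module.finrank ℚ K :=
    Module.finrank_mul_finrank ℚ ℚ⟮X₁⟯ K
  rw [← hmul, Nat.odd_mul] at ho
  obtain ⟨ho1, ho2⟩ := ho
  have hmem : aeval X₁ (quart f g) ∈ ℚ⟮X₁⟯ := by
    have h1 : aeval X₁ (quart f g) = algebraMap ℚ⟮X₁⟯ K
        (aeval (IntermediateField.AdjoinSimple.gen ℚ X₁) (quart f g)) := by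
      rw [← aeval_algebraMap_apply, IntermediateField.AdjoinSimple.algebraMap_gen]
    rw [h1]
    exact (aeval (IntermediateField.AdjoinSimple.gen ℚ X₁) (quart f g)).2
  obtain ⟨Y₂, hY₂⟩ := mem_of_sq (L := ℚ⟮X₁⟯) (y := Y₁) (z := ⟨_, hmem⟩) ho2 (by rw [hXY]; rfl)
  have hY₃ : Y₁ ∈ ℚ⟮X₁⟯ := by rw [hY₂]; exact Y₂.2
  have hY₄ : Y₁ ∈ Algebra.adjoin ℚ {X₁} := by
    rw [← IntermediateField.adjoin_simple_toSubalgebra_of_isAlgebraic hint.isAlgebraic]
    exact hY₃
  rw [Algebra.adjoin_singleton_eq_range_aeval] at hY₄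
  obtain ⟨h, hh⟩ := hY₄
  have hirr : Irreducible (minpoly ℚ X₁) := minpoly.irreducible hint
  have hodd : Odd (minpoly ℚ X₁).natDegree := by
    rw [← IntermediateField.adjoin.finrank hint]
    exact ho1
  have hdvd : minpoly ℚ X₁ ∣ h ^ 2 - quart f g := by
    apply minpoly.dvd
    rw [map_sub, map_pow]
    have h5 : aeval X₁ h = Y₁ := hh
    rw [h5, hXY, sub_self]
  obtain ⟨x₀, y₀, h0⟩ := descent (quart_deg f g) (by rw [quart_coeff]; exact hsq)
    (minpoly ℚ X₁).natDegree (minpoly ℚ X₁) h le_rfl hirr hodd hdvd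
  refine ⟨x₀, 1, y₀, Or.inr one_ne_zero, ?_⟩
  rw [h0, ← quart_aeval]
  rfl

end Pool.Agent.H14G
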