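import Pool.Agent.H14G.Stm

/-!
# SQFF: `f(F) g(F)` is squarefree outside few pairs (project HB)
-/

set_option autoImplicit false
set_option linter.all false

namespace Pool.Agent.H14G.SQFF

open Finset Polynomial Pool.Agent.H14F

/-- `f g` is separable -/
theorem sep_of {a b : Fin 3 → ℤ} (ha : Pool.Agent.H14F.disc a ≠ 0)
    (hb : Pool.Agent.H14F.disc b ≠ 0) (hr : Pool.Agent.H14F.res a b ≠ 0) :
    ((C ((a 0 : ℤ) : ℚ) * X ^ 2 + C ((a 1 : ℤ) : ℚ) * X + C ((a 2 : ℤ) : ℚ)) *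
      (C ((b 0 : ℤ) : ℚ) * X ^ 2 + C ((b 1 : ℤ) : ℚ) * X + C ((b 2 : ℤ) : ℚ))).Separable := by
  have hsep : ∀ a : Fin 3 → ℤ, Pool.Agent.H14F.disc a ≠ 0 →
      (C ((a 0 : ℤ) : ℚ) * X ^ 2 + C ((a 1 : ℤ) : ℚ) * X + C ((a 2 : ℤ) : ℚ)).Separable := by
    intro a ha
    have hd : ((Pool.Agent.H14F.disc a : ℤ) : ℚ) ≠ 0 := by exact_mod_cast ha
    refine ⟨C (-4 * ((a 0 : ℤ) : ℚ) / ((Pool.Agent.H14F.disc a : ℤ) : ℚ)),
      C (1 / ((Pool.Agent.H14F.disc a : ℤ) : ℚ)) *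
        (C (2 * ((a 0 : ℤ) : ℚ)) * X + C ((a 1 : ℤ) : ℚ)), ?_⟩
    have hder : derivative (C ((a 0 : ℤ) : ℚ) * X ^ 2 + C ((a 1 : ℤ) : ℚ) * X + C ((a 2 : ℤ) : ℚ)) =
        C (2 * ((a 0 : ℤ) : ℚ)) * X + C ((a 1 : ℤ) : ℚ) := by
      simp only [derivative_add, derivative_mul, derivative_C, derivative_X_pow, derivative_X,
        map_mul, map_ofNat, C_ofNat, Nat.cast_ofNat]
      ring
    rw [hder]
    have e1 : C (-4 * ((a 0 : ℤ) : ℚ) / ((Pool.Agent.H14F.disc a : ℤ) : ℚ)) =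
        C (1 / ((Pool.Agent.H14F.disc a : ℤ) : ℚ)) * C (-4 * ((a 0 : ℤ) : ℚ)) := by
      rw [← C_mul]
      congr 1
      field_simp
    rw [e1]
    have e2 : C (-4 * ((a 0 : ℤ) : ℚ)) *
        (C ((a 0 : ℤ) : ℚ) * X ^ 2 + C ((a 1 : ℤ) : ℚ) * X + C ((a 2 : ℤ) : ℚ)) +
        (C (2 * ((a 0 : ℤ) : ℚ)) * X + C ((a 1 : ℤ) : ℚ)) *
        (C (2 * ((a 0 : ℤ) : ℚ)) * X + C ((a 1 : ℤ) : ℚ)) =
        C ((Pool.Agent.H14F.disc a : ℤ) : ℚ) := by
      unfold Pool.Agent.H14F.disc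
      simp only [map_mul, map_neg, map_ofNat, Int.cast_sub, Int.cast_pow, Int.cast_mul,
        Int.cast_ofNat, map_sub, map_pow]
      ring
    calc _ = C (1 / ((Pool.Agent.H14F.disc a : ℤ) : ℚ)) * (C (-4 * ((a 0 : ℤ) : ℚ)) *
        (C ((a 0 : ℤ) : ℚ) * X ^ 2 + C ((a 1 : ℤ) : ℚ) * X + C ((a 2 : ℤ) : ℚ)) +
        (C (2 * ((a 0 : ℤ) : ℚ)) * X + C ((a 1 : ℤ) : ℚ)) *
        (C (2 * ((a 0 : ℤ) : ℚ)) * X + C ((a 1 : ℤ) : ℚ))) := by ring
      _ = 1 := by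
        rw [e2, ← C_mul, one_div, inv_mul_cancel₀ hd, C_1]
  refine Polynomial.Separable.mul (hsep a ha) (hsep b hb) ?_
  have hr' : ((Pool.Agent.H14F.res a b : ℤ) : ℚ) ≠ 0 := by exact_mod_cast hr
  -- the resultant is in the ideal
  refine ⟨C (1 / ((Pool.Agent.H14F.res a b : ℤ) : ℚ)) *
    (C ((((a 0 * b 1 - b 0 * a 1) * b 0 : ℤ)) : ℚ) * X +
      C ((((a 0 * b 1 - b 0 * a 1) * b 1 - (a 0 * b 2 - b 0 * a 2) * b 0 : ℤ)) : ℚ)),
    C (1 / ((Pool.Agent.H14F.res a b : ℤ) : ℚ)) *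
    (C (((-((a 0 * b 1 - b 0 * a 1) * a 0) : ℤ)) : ℚ) * X +
      C ((((a 0 * b 2 - b 0 * a 2) * a 0 - (a 0 * b 1 - b 0 * a 1) * a 1 : ℤ)) : ℚ)), ?_⟩
  have e2 : (C ((((a 0 * b 1 - b 0 * a 1) * b 0 : ℤ)) : ℚ) * X +
      C ((((a 0 * b 1 - b 0 * a 1) * b 1 - (a 0 * b 2 - b 0 * a 2) * b 0 : ℤ)) : ℚ)) *
      (C ((a 0 : ℤ) : ℚ) * X ^ 2 + C ((a 1 : ℤ) : ℚ) * X + C ((a 2 : ℤ) : ℚ)) +
      (C (((-((a 0 * b 1 - b 0 * a 1) * a 0) : ℤ)) : ℚ) * X +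
      C ((((a 0 * b 2 - b 0 * a 2) * a 0 - (a 0 * b 1 - b 0 * a 1) * a 1 : ℤ)) : ℚ)) *
      (C ((b 0 : ℤ) : ℚ) * X ^ 2 + C ((b 1 : ℤ) : ℚ) * X + C ((b 2 : ℤ) : ℚ)) =
      C ((Pool.Agent.H14F.res a b : ℤ) : ℚ) := by
    unfold Pool.Agent.H14F.res
    simp only [map_mul, map_neg, map_ofNat, Int.cast_sub, Int.cast_pow, Int.cast_mul,
      Int.cast_ofNat, Int.cast_neg, Int.cast_add, map_sub, map_add, map_pow]
    ring
  calc _ = C (1 / ((Pool.Agent.H14F.res a b : ℤ) : ℚ)) *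
      ((C ((((a 0 * b 1 - b 0 * a 1) * b 0 : ℤ)) : ℚ) * X +
      C ((((a 0 * b 1 - b 0 * a 1) * b 1 - (a 0 * b 2 - b 0 * a 2) * b 0 : ℤ)) : ℚ)) *
      (C ((a 0 : ℤ) : ℚ) * X ^ 2 + C ((a 1 : ℤ) : ℚ) * X + C ((a 2 : ℤ) : ℚ)) +
      (C (((-((a 0 * b 1 - b 0 * a 1) * a 0) : ℤ)) : ℚ) * X +
      C ((((a 0 * b 2 - b 0 * a 2) * a 0 - (a 0 * b 1 - b 0 * a 1) * a 1 : ℤ)) : ℚ)) *
      (C ((b 0 : ℤ) : ℚ) * X ^ 2 + C ((b 1 : ℤ) : ℚ) * X + C ((b 2 : ℤ) : ℚ))) := by ring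
    _ = 1 := by
      rw [e2, ← C_mul, one_div, inv_mul_cancel₀ hr', C_1]

/-- a composition with `G` is separable if no critical value of `G` is a root -/
theorem sep_comp {W G : ℚ[X]} (hW : W.Separable)
    (h : ∀ z : ℂ, aeval z (derivative G) = 0 → aeval (aeval z G) W ≠ 0) : (W.comp G).Separable := by
  unfold Polynomial.Separable at hW ⊢
  rw [Polynomial.isCoprime_iff_aeval_ne_zero_of_isAlgClosed ℚ ℂ] at hW ⊢
  intro z
  by_contra hc
  rw [not_or, not_not, not_not, derivative_comp, map_mul, aeval_comp, aeval_comp] at hc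
  obtain ⟨h1, h2⟩ := hc
  rcases mul_eq_zero.1 h2 with h3 | h3
  · exact h z h3 h1
  · rcases hW (aeval z G) with h4 | h4
    · exact h4 h1
    · exact h4 h3

/-- the value at a complex number -/
noncomputable def vc (f : Fin 3 → ℤ) (u : ℂ) : ℂ := (f 0 : ℂ) * u ^ 2 + (f 1 : ℂ) * u + (f 2 : ℂ)

open Classical in
/-- the critical values -/
noncomputable def crit (F : ℤ[X]) : Finset ℂ :=
  Finset.image (fun z : ℂ => aeval z F) ((derivative F).map (Int.castRingHom ℂ)).roots.toFinset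

theorem crit_card (F : ℤ[X]) : (crit F).card ≤ F.natDegree := by
  classical
  unfold crit
  refine le_trans Finset.card_image_le ?_
  refine le_trans (Multiset.toFinset_card_le _) ?_
  refine le_trans (Polynomial.card_roots' _) ?_
  refine le_trans (Polynomial.natDegree_map_le) ?_
  exact le_trans (Polynomial.natDegree_derivative_le F) (Nat.sub_le _ _)

theorem sqf {F : ℤ[X]} (hF : 1 ≤ F.natDegree) {f g : Fin 3 → ℤ} (hr : res f g ≠ 0)
    (hf : disc f ≠ 0) (hg : disc g ≠ 0) (h : ∀ u ∈ crit F, vc f u ≠ 0 ∧ vc g u ≠ 0) :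
    Squarefree ((facF F f g 0 * facF F f g 1).map (Int.castRingHom ℚ)) := by
  classical
  have e0 : (facF F f g 0 * facF F f g 1).map (Int.castRingHom ℚ) =
      ((C ((f 0 : ℤ) : ℚ) * X ^ 2 + C ((f 1 : ℤ) : ℚ) * X + C ((f 2 : ℤ) : ℚ)) *
      (C ((g 0 : ℤ) : ℚ) * X ^ 2 + C ((g 1 : ℤ) : ℚ) * X + C ((g 2 : ℤ) : ℚ))).comp
      (F.map (Int.castRingHom ℚ)) := by
    simp [facF]
  rw [e0]
  refine (sep_comp (sep_of hf hg hr) fun z hz => ?_).squarefree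
  have hev : ∀ Q : ℤ[X], aeval z (Q.map (Int.castRingHom ℚ)) = aeval z Q := by
    intro Q
    have : Int.castRingHom ℚ = algebraMap ℤ ℚ := rfl
    rw [this, aeval_map_algebraMap]
  have hder : derivative F ≠ 0 := by
    intro h0
    have := Polynomial.derivative_eq_zero.1 h0
    omega
  have hmem : aeval z F ∈ crit F := by
    unfold crit
    refine Finset.mem_image.2 ⟨z, ?_, rfl⟩
    rw [Multiset.mem_toFinset, Polynomial.mem_roots]
    · rw [derivative_map, hev] at hz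
      rw [Polynomial.IsRoot.def, Polynomial.eval_map]
      rw [Polynomial.aeval_def] at hz
      exact hz
    · rw [Ne, Polynomial.map_eq_zero_iff (RingHom.injective_int _)]
      exact hder
  obtain ⟨h1, h2⟩ := h _ hmem
  rw [hev, map_mul]
  refine mul_ne_zero ?_ ?_
  · convert h1 using 1
    simp [vc]
  · convert h2 using 1
    simp [vc]

/-- at most `(2 H + 1)²` forms vanish at `u` -/
theorem cnt (H : ℕ) (u : ℂ) (S : Finset (Fin 3 → ℤ)) (hS : ∀ f ∈ S, f ∈ box H ∧ vc f u = 0) :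
    S.card ≤ (2 * H + 1) ^ 2 := by
  classical
  have h1 : S.card ≤ ((Finset.Icc (-(H : ℤ)) H) ×ˢ (Finset.Icc (-(H : ℤ)) H)).card := by
    refine Finset.card_le_card_of_injOn (fun f => (f 0, f 1)) ?_ ?_
    · intro f hf
      have hb := (hS f hf).1
      unfold Pool.Agent.H14F.box rbox at hb
      rw [Fintype.mem_piFinset] at hb
      exact Finset.mem_product.2 ⟨hb 0, hb 1⟩
    · intro f hf g hg hfg
      have e1 := (hS f hf).2
      have e2 := (hS g hg).2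
      simp only [Prod.mk.injEq] at hfg
      unfold vc at e1 e2
      rw [hfg.1, hfg.2] at e1
      have e3 : (f 2 : ℂ) = (g 2 : ℂ) := by linear_combination e1 - e2
      have e4 : f 2 = g 2 := by exact_mod_cast e3
      funext i
      fin_cases i
      · exact hfg.1
      · exact hfg.2
      · exact e4
  refine le_trans h1 (le_of_eq ?_)
  rw [Finset.card_product, Int.card_Icc, sq]
  congr 1 <;> omega

theorem box_card (H : ℕ) : (box H).card = (2 * H + 1) ^ 3 := by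
  unfold Pool.Agent.H14F.box rbox
  rw [Fintype.card_piFinset]
  simp only [Int.card_Icc, Finset.prod_const, Finset.card_univ, Fintype.card_fin]
  congr 1
  omega

open Classical in
theorem t : Pool.Agent.H14G.S_SQFF := by
  intro F hF
  refine ⟨486 * F.natDegree, by positivity, fun H hH => ?_⟩
  set A := (box H ×ˢ box H).filter fun q : (Fin 3 → ℤ) × (Fin 3 → ℤ) =>
    (res q.1 q.2 ≠ 0 ∧ disc q.1 ≠ 0 ∧ disc q.2 ≠ 0 ∧ q.1 0 ≠ 0 ∧ q.2 0 ≠ 0) ∧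
    ¬ Squarefree ((facF F q.1 q.2 0 * facF F q.1 q.2 1).map (Int.castRingHom ℚ)) with hA
  have hsub : A ⊆ (crit F).biUnion fun u =>
      (((box H).filter fun f => vc f u = 0) ×ˢ box H) ∪
      (box H ×ˢ ((box H).filter fun g => vc g u = 0)) := by
    intro q hq
    rw [hA, Finset.mem_filter, Finset.mem_product] at hq
    obtain ⟨⟨hq1, hq2⟩, ⟨h1, h2, h3, -, -⟩, h4⟩ := hq
    have h5 : ∃ u ∈ crit F, ¬ (vc q.1 u ≠ 0 ∧ vc q.2 u ≠ 0) := by
      by_contra hc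
      push Not at hc
      exact h4 (sqf hF h1 h2 h3 fun u hu => hc u hu)
    obtain ⟨u, hu, h6⟩ := h5
    refine Finset.mem_biUnion.2 ⟨u, hu, ?_⟩
    rw [Finset.mem_union, Finset.mem_product, Finset.mem_product, Finset.mem_filter,
      Finset.mem_filter]
    by_cases h7 : vc q.1 u = 0
    · exact Or.inl ⟨⟨hq1, h7⟩, hq2⟩
    · right
      refine ⟨hq1, hq2, ?_⟩
      by_contra h8
      exact h6 ⟨h7, h8⟩
  have h1 : A.card ≤ (crit F).card * (2 * ((2 * H + 1) ^ 2 * (2 * H + 1) ^ 3)) := by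
    refine le_trans (Finset.card_le_card hsub) ?_
    refine Finset.card_biUnion_le_card_mul _ _ _ fun u _ => ?_
    refine le_trans (Finset.card_union_le _ _) ?_
    rw [Finset.card_product, Finset.card_product, box_card]
    have h2 : ((box H).filter fun f => vc f u = 0).card ≤ (2 * H + 1) ^ 2 :=
      cnt H u _ fun f hf => Finset.mem_filter.1 hf
    nlinarith [Nat.mul_le_mul_right ((2 * H + 1) ^ 3) h2]
  have h2 : (A.card : ℝ) ≤ (F.natDegree : ℝ) * (2 * ((2 * (H : ℝ) + 1) ^ 2 * (2 * (H : ℝ) + 1) ^ 3)) := by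
    have := le_trans h1 (Nat.mul_le_mul_right _ (crit_card F))
    exact_mod_cast this
  have hH1 : (1 : ℝ) ≤ H := by exact_mod_cast hH
  have h3 : (2 * (H : ℝ) + 1) ^ 5 ≤ (3 * (H : ℝ)) ^ 5 :=
    pow_le_pow_left₀ (by positivity) (by linarith) 5
  have hd : (0 : ℝ) ≤ F.natDegree := Nat.cast_nonneg _
  calc (A.card : ℝ) ≤ (F.natDegree : ℝ) * (2 * ((2 * (H : ℝ) + 1) ^ 2 * (2 * (H : ℝ) + 1) ^ 3)) := h2
    _ = (F.natDegree : ℝ) * (2 * (2 * (H : ℝ) + 1) ^ 5) := by ring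
    _ ≤ (F.natDegree : ℝ) * (2 * (3 * (H : ℝ)) ^ 5) := by gcongr
    _ = 486 * F.natDegree * (H : ℝ) ^ 5 := by ring

end Pool.Agent.H14G.SQFF
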