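import Pool.Agent.H14F.Stm
import Pool.Agent.H14F.DefB

/-!
# Everywhere locally soluble curves `y² = f(F(x)) g(F(x))`: definitions and stubs

Project B (helper14), MP_ab3ecb_nt. Prove `theorem Pool.Agent.H14G.<Stub>.t : Pool.Agent.H14G.S_<Stub>` in
`Pool/Agent/H14G/<Stub>.lean`.
-/

set_option autoImplicit false

namespace Pool.Agent.H14G

open Finset Polynomial Pool.Agent.H14F

/-- the value `f(u, 1)` -/
def vl (f : Fin 3 → ℤ) (u : ℤ) : ℤ := f 0 * u ^ 2 + f 1 * u + f 2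

/-- the condition at the prime `p` (`u` is the number with `F - u = c h²` modulo `p`, if there is one) -/
def Bd (p : ℕ) (u : ℤ) (f g : Fin 3 → ℤ) : Prop :=
  Red p f g ∨ ((p : ℤ) ∣ f 0 * g 0 ∧ (p : ℤ) ∣ vl f u * vl g u)

/-- `y² = f(F(x)) g(F(x))` has a solution in `K` -/
def SolF (F : ℤ[X]) (f g : Fin 3 → ℤ) (K : Type) [Field K] : Prop :=
  ∃ x y : K, y ^ 2 = ev f (F.eval₂ (Int.castRingHom K) x) 1 * ev g (F.eval₂ (Int.castRingHom K) x) 1

/-- **LEMA** (taken by helper14). `W = e W₀ s²` with `W₀` squarefree; `W₀(F) = c' h₁²` since `s(F) ≠ 0`. Over a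
perfect field `W₀`, `W₀'` are coprime, so `W₀(F)`, `W₀'(F)` are coprime, so `h₁` is prime to `W₀'(F)` and divides
`W₀'(F) F' = 2 c' h₁ h₁'`: `h₁ ∣ F'`, `2 deg h₁ = deg W₀ deg F`, so `deg W₀ ≤ 1`. -/
def S_LEMA : Prop := ∀ (k : Type) [Field k] [PerfectField k], (2 : k) ≠ 0 →
  ∀ (F W h : k[X]) (c : k), derivative F ≠ 0 → W ≠ 0 → W.comp F = C c * h ^ 2 →
    (∃ (e : k) (s : k[X]), W = C e * s ^ 2) ∨
    ∃ (e α c' : k) (s h' : k[X]), W = C e * (X - C α) * s ^ 2 ∧ F - C α = C c' * h' ^ 2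

/-- **LOCF** (from LEMA). Let `d = deg F`, `P₀ > 64 d² + |leading coefficient| + 23`. For `p ≥ P₀` let `α p` be an
integer such that `F - α p = c h²` modulo `p` for some `c`, `h` in `ℤ/p[X]`, if there is one, and `0` otherwise. It is
unique modulo `p`: if `F - α = c h²` and `F - β = c' h'²`, `α ≠ β`, then `h`, `h'` are coprime and divide `F'`
(`F' ≠ 0` modulo `p`, of degree `d - 1`, as `p > d`), but `deg h + deg h' = d`. Let `W = f g` modulo `p`, a product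
of two polynomials `pol _ _ _` (`Pool/Agent/H14F/LOCS.lean`), and suppose `W(F) = c h²`. If `W = 0` then `Red`
(one of the two is zero). Otherwise LEMA: if `W = e s²` then `Red p f g` by `LOCS.red_of_sq`; if
`W = e (X - α) s²` then `p ∣ f 0 g 0` (otherwise `deg W = 4` is even) and `f(α) g(α) = 0`, so `Bd p (α p) f g`. So for
`¬ Bd p (α p) f g` the polynomial `W(F)` of degree `≤ 4 d` is not a constant times a square and by Weil's bound it
has a nonzero square value modulo `p`, which is lifted by Hensel's lemma: adapt `exists_value`, `solF_good` in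
`Pool/Agent/H14Q2/Els.lean`. -/
def S_LOCF : Prop := ∀ F : ℤ[X], 1 ≤ F.natDegree → ∃ (P₀ : ℕ) (α : ℕ → ℤ),
  ∀ (p : ℕ) [Fact p.Prime], P₀ ≤ p → ∀ f g : Fin 3 → ℤ, ¬ Bd p (α p) f g → SolF F f g ℚ_[p]

open Classical in
/-- **CLS**. `REDC.t` gives at most `3 p⁴` pairs with `Red`. The second condition: one of four:
`f 0 = 0` and `f(u) = 0`: `f 2` is determined by `f 1`, at most `p · p³` pairs; `f 0 = 0` and `g(u) = 0`: at most
`p² · p²` pairs (`g 2` is determined by `g 0`, `g 1`), and the same with `f`, `g` exchanged. -/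
def S_CLS : Prop := ∀ (p : ℕ) (u : ℤ), p.Prime → 3 ≤ p →
  ((cls p ×ˢ cls p).filter fun q : (Fin 3 → ℤ) × (Fin 3 → ℤ) => Bd p u q.1 q.2).card ≤ 7 * p ^ 4

open Classical in
/-- **BIG**. `p` divides `f 0 g 0 ≠ 0`, so `p ≤ H`. For given `H / Q ≤ p ≤ H` there are four cases; in each of them two
of the six coefficients are determined modulo `p` by the others (`f 0 ≡ 0` or `g 0 ≡ 0`, and `f 2` by `f 0, f 1`, or
`g 2` by `g 0, g 1`), an integer in `[-H, H]` in a given class modulo `p ≥ H / Q` has at most `2 Q + 1` values, so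
there are at most `4 (2 Q + 1)² (2 H + 1)⁴` pairs. Sum over `p ≤ H`. -/
def S_BIG : Prop := ∀ Q : ℕ, ∃ C : ℝ, 0 < C ∧ ∀ (α : ℕ → ℤ) (H : ℕ), 3 ≤ H →
  (((box H ×ˢ box H).filter fun q : (Fin 3 → ℤ) × (Fin 3 → ℤ) => q.1 0 ≠ 0 ∧ q.2 0 ≠ 0 ∧
    ∃ p : ℕ, p.Prime ∧ H ≤ Q * p ∧ (p : ℤ) ∣ q.1 0 * q.2 0 ∧
      (p : ℤ) ∣ vl q.1 (α p) * vl q.2 (α p)).card : ℝ) ≤ C * (H : ℝ) ^ 5

open Classical in
/-- **SQFF**. `f(F) g(F)` is squarefree over `ℚ` if `res f g`, `disc f`, `disc g`, `f 0`, `g 0` are not zero and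
`f(u) g(u) ≠ 0` for all the critical values `u = F(z)`, `F'(z) = 0`, `z ∈ ℂ`: with `W = f g`, `W(F)` is separable,
since at a common complex zero `z` of `W(F)` and of its derivative `W'(F) F'` either `W(u) = W'(u) = 0`, `u = F(z)`,
but `W` is separable (see `sqf_of` in `Pool/Agent/Results/MP_d6ddbd_nt/AllPairsOfForms.lean`, copy it), or `F'(z) = 0`
(`Polynomial.isCoprime_iff_aeval_ne_zero_of_isAlgClosed` or similar). There are at most `deg F` critical values, and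
for each of them and all `f 0, f 1` there is at most one `f 2` with `f(u) = 0`: at most
`2 deg F (2 H + 1)⁵` pairs. -/
def S_SQFF : Prop := ∀ F : ℤ[X], 1 ≤ F.natDegree → ∃ C : ℝ, 0 < C ∧ ∀ H : ℕ, 1 ≤ H →
  (((box H ×ˢ box H).filter fun q : (Fin 3 → ℤ) × (Fin 3 → ℤ) =>
    (res q.1 q.2 ≠ 0 ∧ disc q.1 ≠ 0 ∧ disc q.2 ≠ 0 ∧ q.1 0 ≠ 0 ∧ q.2 0 ≠ 0) ∧
    ¬ Squarefree ((facF F q.1 q.2 0 * facF F q.1 q.2 1).map (Int.castRingHom ℚ))).card : ℝ) ≤
    C * (H : ℝ) ^ 5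

end Pool.Agent.H14G
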